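import Pool.Agent.TH550.LV.Reg
import Pool.Agent.TH550.LP.Ext

/-!
Hyperinvariant subspaces of weighted translations on Banach function spaces: assembly (helper550).
-/

set_option autoImplicit false
set_option linter.unusedSectionVars false
open scoped ComplexConjugate InnerProductSpace Topology ENNReal
open Filter MeasureTheory NormedSpace

namespace Pool.Agent.TH550.LV
open Pool.Agent.TH550.LP

variable {X : Type} [MeasurableSpace X] {μ : Measure X}
  {F : Type} [NormedAddCommGroup F] [InnerProductSpace ℂ F] [CompleteSpace F]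

/-- `E` is a space of (classes of) integrable functions containing the bounded ones, with norm convergence
of bounded almost everywhere convergent sequences; `j` is the inclusion in `L¹`, `i` the inclusion of
`L^∞`. -/
structure FSp {E : Type} [NormedAddCommGroup E] [NormedSpace ℂ E]
    (j : E →L[ℂ] Lp F 1 μ) (i : Lp F ∞ μ →L[ℂ] E) : Prop where
  inj : ∀ f, j f = 0 → f = 0
  incl : ∀ f : Lp F ∞ μ, (j (i f) : X → F) =ᵐ[μ] (f : X → F)
  dom : ∀ (f : ℕ → Lp F ∞ μ) (g : Lp F ∞ μ) (K : ℝ), (∀ n, ‖f n‖ ≤ K) →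
    (∀ᵐ x ∂μ, Tendsto (fun n => (f n : X → F) x) atTop (𝓝 ((g : X → F) x))) →
    Tendsto (fun n => i (f n)) atTop (𝓝 (i g))

instance itr (q : ℝ≥0∞) [Fact (1 ≤ q)] : IsTopologicalRing (Lp F q μ →L[ℂ] Lp F q μ) :=
  let _ : NormedRing (Lp F q μ →L[ℂ] Lp F q μ) := ContinuousLinearMap.toNormedRing
  inferInstance

section
variable [IsProbabilityMeasure μ]

theorem prob_nonempty (μ : Measure X) [IsProbabilityMeasure μ] : Nonempty X := by
  by_contra hne
  rw [not_nonempty_iff] at hne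
  have h1 : μ Set.univ = 0 := by
    rw [Set.univ_eq_empty_iff.2 hne, measure_empty]
  rw [measure_univ] at h1
  exact one_ne_zero h1

/-- the inclusion of `L^q` in `L^p` -/
noncomputable def incl (μ : Measure X) [IsProbabilityMeasure μ] (F : Type) [NormedAddCommGroup F]
    [InnerProductSpace ℂ F] (p q : ℝ≥0∞) [Fact (1 ≤ p)] [Fact (1 ≤ q)] (hpq : p ≤ q) :
    Lp F q μ →L[ℂ] Lp F p μ :=
  LinearMap.mkContinuous
    { toFun := fun f => ⟨f.1, Lp.antitone hpq f.2⟩
      map_add' := fun _ _ => rfl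
      map_smul' := fun _ _ => rfl } 1 (fun f => by
    rw [one_mul, Lp.norm_def, Lp.norm_def]
    exact ENNReal.toReal_mono (Lp.memLp f).2.ne
      (eLpNorm_le_eLpNorm_of_exponent_le hpq (Lp.memLp f).1))

theorem incl_coe (p q : ℝ≥0∞) [Fact (1 ≤ p)] [Fact (1 ≤ q)] (hpq : p ≤ q) (f : Lp F q μ) :
    (incl μ F p q hpq f : X → F) = (f : X → F) := rfl

theorem inc_act {q : ℝ≥0∞} [Fact (1 ≤ q)] {Φ : X → F →L[ℂ] F} {S : X → X}
    {T : Lp F q μ →L[ℂ] Lp F q μ} {T' : Lp F ∞ μ →L[ℂ] Lp F ∞ μ} (h : Act q Φ S T)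
    (h' : Act ∞ Φ S T') (f : Lp F ∞ μ) :
    incl μ F q ∞ le_top (T' f) = T (incl μ F q ∞ le_top f) := by
  apply Lp.ext
  filter_upwards [h (incl μ F q ∞ le_top f), h' f] with x e1 e2
  show (T' f : X → F) x = (T (incl μ F q ∞ le_top f) : X → F) x
  rw [e1, e2, incl_coe]

theorem inc_exp {q : ℝ≥0∞} [Fact (1 ≤ q)] {Φ : X → F →L[ℂ] F} {S : X → X}
    {T : Lp F q μ →L[ℂ] Lp F q μ} {T' : Lp F ∞ μ →L[ℂ] Lp F ∞ μ} (h : Act q Φ S T)
    (h' : Act ∞ Φ S T') (f : Lp F ∞ μ) :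
    incl μ F q ∞ le_top (exp T' f) = exp T (incl μ F q ∞ le_top f) :=
  exp_int (incl μ F q ∞ le_top : Lp F ∞ μ →+ Lp F q μ)
    (fun r x => map_smul (incl μ F q ∞ le_top) (r : ℂ) x)
    (incl μ F q ∞ le_top).continuous T' T (inc_act h h') f

/-- the pairing -/
noncomputable def pr (g : Lp F ∞ μ) (y : Lp F 1 μ) : ℂ :=
  ∫ x, ⟪(g : X → F) x, (y : X → F) x⟫_ℂ ∂μ

theorem norm_infty (g : Lp F ∞ μ) : ∀ᵐ x ∂μ, ‖(g : X → F) x‖ ≤ ‖g‖ := by
  have h1 := ae_le_eLpNormEssSup (f := (g : X → F)) (μ := μ)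
  filter_upwards [h1] with x hx
  rw [Lp.norm_def, eLpNorm_exponent_top]
  have h2 : eLpNormEssSup (g : X → F) μ ≠ ∞ := by
    have := (Lp.memLp g).2.ne
    rwa [eLpNorm_exponent_top] at this
  have h3 := ENNReal.toReal_mono h2 hx
  rwa [toReal_enorm] at h3

theorem int_y (y : Lp F 1 μ) : Integrable (y : X → F) μ :=
  (Lp.memLp y).integrable le_rfl

theorem int_pr (g : Lp F ∞ μ) (y : Lp F 1 μ) :
    Integrable (fun x => ⟪(g : X → F) x, (y : X → F) x⟫_ℂ) μ := by
  refine ((int_y y).norm.const_mul ‖g‖).mono' ((Lp.memLp g).1.inner (Lp.memLp y).1) ?_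
  filter_upwards [norm_infty g] with x hx
  exact (norm_inner_le_norm _ _).trans (mul_le_mul_of_nonneg_right hx (norm_nonneg _))

theorem pr_bound (g : Lp F ∞ μ) (y : Lp F 1 μ) : ‖pr g y‖ ≤ ‖g‖ * ‖y‖ := by
  have h1 : ‖pr g y‖ ≤ ∫ x, ‖g‖ * ‖(y : X → F) x‖ ∂μ := by
    refine norm_integral_le_of_norm_le ((int_y y).norm.const_mul _) ?_
    filter_upwards [norm_infty g] with x hx
    exact (norm_inner_le_norm _ _).trans (mul_le_mul_of_nonneg_right hx (norm_nonneg _))
  refine h1.trans (le_of_eq ?_)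
  rw [integral_const_mul]
  congr 1
  have h2 : ∫ x, ‖(y : X → F) x‖ ∂μ = (eLpNorm (y : X → F) 1 μ).toReal := by
    rw [eLpNorm_one_eq_lintegral_enorm, integral_norm_eq_lintegral_enorm (Lp.memLp y).1]
  rw [h2, Lp.norm_def]

theorem pr_add_right (g : Lp F ∞ μ) (y z : Lp F 1 μ) : pr g (y + z) = pr g y + pr g z := by
  unfold pr
  rw [← integral_add (int_pr g y) (int_pr g z)]
  refine integral_congr_ae ?_
  filter_upwards [Lp.coeFn_add y z] with x e
  rw [e, Pi.add_apply, inner_add_right]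

theorem pr_add_left (g g' : Lp F ∞ μ) (y : Lp F 1 μ) : pr (g + g') y = pr g y + pr g' y := by
  unfold pr
  rw [← integral_add (int_pr g y) (int_pr g' y)]
  refine integral_congr_ae ?_
  filter_upwards [Lp.coeFn_add g g'] with x e
  rw [e, Pi.add_apply, inner_add_left]

theorem pr_smul_right (g : Lp F ∞ μ) (c : ℂ) (y : Lp F 1 μ) : pr g (c • y) = c * pr g y := by
  unfold pr
  rw [← integral_const_mul]
  refine integral_congr_ae ?_
  filter_upwards [Lp.coeFn_smul c y] with x e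
  rw [e, Pi.smul_apply, inner_smul_right]

theorem pr_smul_left (g : Lp F ∞ μ) (r : ℝ) (y : Lp F 1 μ) : pr ((r : ℂ) • g) y = r * pr g y := by
  unfold pr
  rw [← integral_const_mul]
  refine integral_congr_ae ?_
  filter_upwards [Lp.coeFn_smul (r : ℂ) g] with x e
  rw [e, Pi.smul_apply, inner_smul_left, Complex.conj_ofReal]

/-- adjoint relation -/
theorem pr_act {S : X ≃ᵐ X} (hS : MeasurePreserving S μ μ) {Φ : X → F →L[ℂ] F}
    {T' : Lp F ∞ μ →L[ℂ] Lp F ∞ μ}
    (h' : Act ∞ (fun x => star (Φ (S.symm x))) S.symm T') (g : Lp F ∞ μ) (y z : Lp F 1 μ)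
    (h : (z : X → F) =ᵐ[μ] fun x => Φ x ((y : X → F) (S x))) :
    pr g z = pr (T' g) y := by
  unfold pr
  have e1 : ∫ x, ⟪(g : X → F) x, (z : X → F) x⟫_ℂ ∂μ
      = ∫ x, (fun w => ⟪(g : X → F) (S.symm w), Φ (S.symm w) ((y : X → F) w)⟫_ℂ) (S x) ∂μ := by
    refine integral_congr_ae ?_
    filter_upwards [h] with x e
    simp only [MeasurableEquiv.symm_apply_apply]
    rw [e]
  have e2 := hS.integral_comp'
    (fun w => ⟪(g : X → F) (S.symm w), Φ (S.symm w) ((y : X → F) w)⟫_ℂ)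
  refine e1.trans (e2.trans ?_)
  refine integral_congr_ae ?_
  filter_upwards [h' g] with x e
  rw [e, ContinuousLinearMap.star_eq_adjoint, ContinuousLinearMap.adjoint_inner_left]

theorem star_meas {S : X ≃ᵐ X} {Φ : X → F →L[ℂ] F} (hΦ : StronglyMeasurable Φ) :
    StronglyMeasurable fun x => star (Φ (S.symm x)) :=
  (continuous_star.comp_stronglyMeasurable hΦ).comp_measurable S.symm.measurable

/-- the adjoint on `L²` -/
theorem adj_act {S : X ≃ᵐ X} (hS : MeasurePreserving S μ μ) {Φ : X → F →L[ℂ] F}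
    (hΦ : StronglyMeasurable Φ) {R : ℝ}
    (hR : ∀ x, ‖Φ x‖ ≤ R) {T : Lp F 2 μ →L[ℂ] Lp F 2 μ} (h : Act 2 Φ S T) :
    Act 2 (fun x => star (Φ (S.symm x))) S.symm (star T) := by
  have hR0 : 0 ≤ R := by
    obtain ⟨x⟩ := prob_nonempty μ
    exact (norm_nonneg _).trans (hR x)
  obtain ⟨T', hT', -⟩ := exists_act 2 (μ := μ) (star_meas (S := S) hΦ) hR0
    (fun x => by rw [norm_star]; exact hR _) (hS.symm S)
  have hst : star T = T' := by
    rw [ContinuousLinearMap.star_eq_adjoint, eq_comm, ContinuousLinearMap.eq_adjoint_iff]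
    intro g y
    rw [L2.inner_def, L2.inner_def]
    have e1 : ∫ x, ⟪(g : X → F) x, (T y : X → F) x⟫_ℂ ∂μ
        = ∫ x, (fun w => ⟪(g : X → F) (S.symm w), Φ (S.symm w) ((y : X → F) w)⟫_ℂ) (S x) ∂μ := by
      refine integral_congr_ae ?_
      filter_upwards [h y] with x e
      simp only [MeasurableEquiv.symm_apply_apply]
      rw [e]
    have e2 := hS.integral_comp'
      (fun w => ⟪(g : X → F) (S.symm w), Φ (S.symm w) ((y : X → F) w)⟫_ℂ)
    refine Eq.trans ?_ (e1.trans e2).symm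
    refine integral_congr_ae ?_
    filter_upwards [hT' g] with x e
    rw [e, ContinuousLinearMap.star_eq_adjoint, ContinuousLinearMap.adjoint_inner_left]
  rw [hst]
  exact hT'

theorem norm_le_of_bd {q : ℝ≥0∞} {w : Lp F q μ} {C : ℝ} (hC : 0 ≤ C)
    (h : ∀ᵐ x ∂μ, ‖(w : X → F) x‖ ≤ C) : ‖w‖ ≤ C := by
  have h1 := Lp.norm_le_of_ae_bound hC h
  have h2 : measureUnivNNReal μ = 1 := by
    unfold measureUnivNNReal
    simp
  rw [h2] at h1
  simpa using h1

/-- the main step -/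
theorem hyp_aux {S : X ≃ᵐ X} (hS : MeasurePreserving S μ μ) {Φ : X → F →L[ℂ] F}
    (hΦ : StronglyMeasurable Φ) {R : ℝ}
    (hR : ∀ x, ‖Φ x‖ ≤ R) {T2 : Lp F 2 μ →L[ℂ] Lp F 2 μ} (hT2 : Act 2 Φ S T2) (hG : GData T2)
    {E : Type} [NormedAddCommGroup E] [NormedSpace ℂ E] [CompleteSpace E]
    {j : E →L[ℂ] Lp F 1 μ} {i : Lp F ∞ μ →L[ℂ] E} (hE : FSp j i) {T : E →L[ℂ] E}
    (hT : ∀ f : E, (j (T f) : X → F) =ᵐ[μ] fun x => Φ x ((j f : X → F) (S x))) :
    ∃ (f h : Lp F ∞ μ), f ≠ 0 ∧ h ≠ 0 ∧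
      ∀ Q : E →L[ℂ] E, Q * T = T * Q → pr h (j (Q (i f))) = 0 := by
  have hR0 : 0 ≤ R := by
    obtain ⟨x⟩ := prob_nonempty μ
    exact (norm_nonneg _).trans (hR x)
  obtain ⟨k, v, g, f, h, a, b, C, hk, hab, hf, hh, hv, hg, hev, heg⟩ := hG
  set η : ℝ := (b - a) / 4 with hη
  have hη0 : 0 < η := by rw [hη]; linarith
  obtain ⟨σ1, ψ1, K1, hσ1, hψ1m, hψ101, hK1, hnz1, hlim1, hbd1, hex1⟩ :=
    reg S hS hT2 k hk v f hf hv a C hev η hη0
  have hadj : Act 2 (fun x => (-1 : ℂ) • star (Φ (S.symm x))) S.symm (-star T2) := by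
    have := (adj_act hS hΦ hR hT2).smul (-1)
    rwa [neg_one_smul] at this
  obtain ⟨σ2, ψ2, K2, hσ2, hψ2m, hψ201, hK2, hnz2, hlim2, hbd2, hex2⟩ :=
    reg S.symm (hS.symm S) hadj (fun i => k (σ1 i)) (hk.comp hσ1) (fun i => g (σ1 i)) h hh
      (hg.comp hσ1.tendsto_atTop) (-b) C (fun i => heg (σ1 i)) η hη0
  set kk : ℕ → ℕ := fun i => k (σ1 (σ2 i)) with hkk
  have hkkm : StrictMono kk := hk.comp (hσ1.comp hσ2)
  -- the bounded functions
  have mem1 : ∀ i, MemLp (fun x => (ψ1 x : ℂ) • (v (σ1 (σ2 i)) : X → F) x) ∞ μ := fun i => by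
    refine memLp_top_of_bound ((Complex.measurable_ofReal.comp hψ1m).aestronglyMeasurable.smul
      (Lp.memLp _).1) K1 ?_
    filter_upwards [hbd1] with x hx
    exact hx (σ2 i)
  have mem2 : ∀ i, MemLp (fun x => (ψ2 x : ℂ) • (g (σ1 (σ2 i)) : X → F) x) ∞ μ := fun i => by
    refine memLp_top_of_bound ((Complex.measurable_ofReal.comp hψ2m).aestronglyMeasurable.smul
      (Lp.memLp _).1) K2 ?_
    filter_upwards [hbd2] with x hx
    exact hx i
  have hfb : ∀ᵐ x ∂μ, ‖(ψ1 x : ℂ) • (f : X → F) x‖ ≤ K1 := by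
    filter_upwards [hlim1, hbd1] with x h1 h2
    exact le_of_tendsto (h1.const_smul (ψ1 x : ℂ)).norm (Eventually.of_forall h2)
  have hhb : ∀ᵐ x ∂μ, ‖(ψ2 x : ℂ) • (h : X → F) x‖ ≤ K2 := by
    filter_upwards [hlim2, hbd2] with x h1 h2
    exact le_of_tendsto (h1.const_smul (ψ2 x : ℂ)).norm (Eventually.of_forall h2)
  have memf : MemLp (fun x => (ψ1 x : ℂ) • (f : X → F) x) ∞ μ :=
    memLp_top_of_bound ((Complex.measurable_ofReal.comp hψ1m).aestronglyMeasurable.smul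
      (Lp.memLp _).1) K1 hfb
  have memh : MemLp (fun x => (ψ2 x : ℂ) • (h : X → F) x) ∞ μ :=
    memLp_top_of_bound ((Complex.measurable_ofReal.comp hψ2m).aestronglyMeasurable.smul
      (Lp.memLp _).1) K2 hhb
  set y : ℕ → Lp F ∞ μ := fun i => (mem1 i).toLp _ with hy
  set w : ℕ → Lp F ∞ μ := fun i => (mem2 i).toLp _ with hw
  set F0 : Lp F ∞ μ := memf.toLp _ with hF
  set H0 : Lp F ∞ μ := memh.toLp _ with hH
  have hFc : (F0 : X → F) =ᵐ[μ] fun x => (ψ1 x : ℂ) • (f : X → F) x := MemLp.coeFn_toLp memf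
  have hHc : (H0 : X → F) =ᵐ[μ] fun x => (ψ2 x : ℂ) • (h : X → F) x := MemLp.coeFn_toLp memh
  have hyc : ∀ i, (y i : X → F) =ᵐ[μ] fun x => (ψ1 x : ℂ) • (v (σ1 (σ2 i)) : X → F) x :=
    fun i => MemLp.coeFn_toLp (mem1 i)
  have hwc : ∀ i, (w i : X → F) =ᵐ[μ] fun x => (ψ2 x : ℂ) • (g (σ1 (σ2 i)) : X → F) x :=
    fun i => MemLp.coeFn_toLp (mem2 i)
  have hFne : F0 ≠ 0 := by
    intro h0
    apply hnz1
    rw [h0] at hFc
    filter_upwards [hFc, Lp.coeFn_zero F ∞ μ] with x e1 e2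
    rw [← e1, e2, Pi.zero_apply]
  have hHne : H0 ≠ 0 := by
    intro h0
    apply hnz2
    rw [h0] at hHc
    filter_upwards [hHc, Lp.coeFn_zero F ∞ μ] with x e1 e2
    rw [← e1, e2, Pi.zero_apply]
  refine ⟨F0, H0, hFne, hHne, fun Q hQ => ?_⟩
  -- operators on `L^∞`
  obtain ⟨Ti, hTi, -⟩ := exists_act (μ := μ) ∞ hΦ hR0 hR hS
  obtain ⟨Ui, hUi, -⟩ := exists_act (μ := μ) ∞ (Φ := fun x => (-1 : ℂ) • star (Φ (S.symm x)))
    ((star_meas (S := S) hΦ).const_smul (-1 : ℂ)) hR0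
    (fun x => by rw [norm_smul, norm_neg, norm_one, one_mul, norm_star]; exact hR _)
    (hS.symm S)
  have hinter : ∀ z : Lp F ∞ μ, i (Ti z) = T (i z) := by
    intro z
    rw [← sub_eq_zero]
    refine hE.inj _ ?_
    rw [map_sub, sub_eq_zero]
    apply Lp.ext
    have h1 := hS.quasiMeasurePreserving.ae_eq_comp (hE.incl z)
    filter_upwards [hE.incl (Ti z), hT (i z), hTi z, h1] with x e1 e2 e3 e4
    simp only [Function.comp_apply] at e4
    rw [e1, e2, e3, e4]
  have hinterexp : ∀ (c : ℂ) (z : Lp F ∞ μ), i (exp (c • Ti) z) = exp (c • T) (i z) := by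
    intro c z
    refine exp_int (i : Lp F ∞ μ →+ E) (fun r x => map_smul i (r : ℂ) x) i.continuous _ _
      (fun x => ?_) z
    show i (c • Ti x) = c • T (i x)
    rw [map_smul, hinter]
  -- growth
  have gr1 : ∀ n, ‖exp ((kk n : ℂ) • T) (i (y n))‖ ≤
      ‖i‖ * (K1 * Real.exp ((a + η) * kk n)) := by
    intro n
    rw [← hinterexp]
    refine (i.le_opNorm _).trans (mul_le_mul_of_nonneg_left (norm_le_of_bd (by positivity) ?_)
      (norm_nonneg _))
    have h1 := hex1 (σ2 n) (incl μ F 2 ∞ le_top (y n)) (hyc n)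
    rw [← inc_exp (hT2.smul (kk n : ℂ)) (hTi.smul (kk n : ℂ))] at h1
    exact h1
  have gr2 : ∀ n, ‖exp ((kk n : ℂ) • Ui) (w n)‖ ≤ K2 * Real.exp ((-b + η) * kk n) := by
    intro n
    refine norm_le_of_bd (by positivity) ?_
    have h1 := hex2 n (incl μ F 2 ∞ le_top (w n)) (hwc n)
    rw [← inc_exp (hadj.smul (kk n : ℂ)) (hUi.smul (kk n : ℂ))] at h1
    exact h1
  have hwn : ∀ n, ‖w n‖ ≤ K2 := fun n => norm_le_of_bd hK2 (by
    filter_upwards [hwc n, hbd2] with x e1 e2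
    rw [e1]
    exact e2 n)
  have hyn : ∀ n, ‖y n‖ ≤ K1 := fun n => norm_le_of_bd hK1 (by
    filter_upwards [hyc n, hbd1] with x e1 e2
    rw [e1]
    exact e2 (σ2 n))
  -- limits
  have lim1 : Tendsto (fun n => i (y n)) atTop (𝓝 (i F0)) := by
    refine hE.dom y F0 K1 hyn ?_
    filter_upwards [ae_all_iff.2 hyc, hlim1, hFc] with x e1 e2 e3
    rw [e3]
    simp_rw [e1]
    exact (e2.comp hσ2.tendsto_atTop).const_smul _
  have lim2 : ∀ z : Lp F 1 μ, Tendsto (fun n => pr (w n) z) atTop (𝓝 (pr H0 z)) := by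
    intro z
    refine tendsto_integral_of_dominated_convergence (fun x => K2 * ‖(z : X → F) x‖)
      (fun i => (int_pr (w i) z).1) ((int_y z).norm.const_mul _) (fun i => ?_) ?_
    · filter_upwards [hwc i, hbd2] with x e1 e2
      rw [e1]
      exact (norm_inner_le_norm _ _).trans (mul_le_mul_of_nonneg_right (e2 i) (norm_nonneg _))
    · filter_upwards [ae_all_iff.2 hwc, hlim2, hHc] with x e1 e2 e3
      rw [e3]
      simp_rw [e1]
      exact (e2.const_smul _).inner tendsto_const_nhds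
  have lim3 : Tendsto (fun n => pr (w n) (j (Q (i (y n))))) atTop
      (𝓝 (pr H0 (j (Q (i F0))))) := by
    have e1 : ∀ n, pr (w n) (j (Q (i (y n)))) = pr (w n) (j (Q (i F0))) +
        pr (w n) (j (Q (i (y n) - i F0))) := fun n => by
      rw [← pr_add_right, ← map_add, ← map_add, add_sub_cancel]
    simp_rw [e1]
    have e2 : Tendsto (fun n => pr (w n) (j (Q (i (y n) - i F0)))) atTop (𝓝 0) := by
      refine squeeze_zero_norm (fun n => (pr_bound _ _).trans
        (mul_le_mul (hwn n) ((j.le_opNorm _).trans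
          (mul_le_mul_of_nonneg_left (Q.le_opNorm _) (norm_nonneg _))) (norm_nonneg _) hK2)) ?_
      have e3 := (((lim1.sub_const (i F0)).norm.const_mul ‖Q‖).const_mul ‖j‖).const_mul K2
      simpa using e3
    have := (lim2 (j (Q (i F0)))).add e2
    rwa [add_zero] at this
  -- the decay
  have dec : ∀ n, ‖pr (w n) (j (Q (i (y n))))‖ ≤
      K1 * K2 * ‖Q‖ * ‖i‖ * ‖j‖ * Real.exp (-(2 * η) * kk n) := by
    intro n
    have e0 : exp (((kk n : ℂ) • (-T))) (exp ((kk n : ℂ) • T) (Q (i (y n))))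
        = Q (i (y n)) := by
      rw [smul_neg]
      exact exp_neg_exp _ _
    have e1 : Q (exp ((kk n : ℂ) • T) (i (y n))) = exp ((kk n : ℂ) • T) (Q (i (y n))) := by
      refine exp_int (Q : E →+ E) (fun r x => ?_) Q.continuous _ _ (fun x => ?_) _
      · exact map_smul Q _ _
      · show Q ((kk n : ℂ) • T x) = (kk n : ℂ) • T (Q x)
        rw [map_smul]
        congr 1
        exact congrArg (fun A : E →L[ℂ] E => A x) hQ
    have e2 : pr (w n) (j (exp ((kk n : ℂ) • (-T)) (exp ((kk n : ℂ) • T) (Q (i (y n))))))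
        = pr (exp ((kk n : ℂ) • Ui) (w n)) (j (exp ((kk n : ℂ) • T) (Q (i (y n))))) := by
      refine exp_adj _ _ (fun g x => pr g (j x)) (fun g x y => ?_) (fun g g' x => pr_add_left _ _ _)
        (fun g r x => ?_) (fun g r x => pr_smul_left _ _ _) ‖j‖ (fun g x => ?_) (fun g x => ?_) _ _
      · rw [map_add, pr_add_right]
      · rw [map_smul, pr_smul_right]
      · calc ‖pr g (j x)‖ ≤ ‖g‖ * ‖j x‖ := pr_bound _ _
          _ ≤ ‖g‖ * (‖j‖ * ‖x‖) := mul_le_mul_of_nonneg_left (j.le_opNorm _) (norm_nonneg _)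
          _ = ‖j‖ * (‖g‖ * ‖x‖) := by ring
      · refine pr_act (Φ := fun x => (-(kk n : ℂ)) • Φ x) hS ?_ g _ _ ?_
        · refine (hUi.smul (kk n : ℂ)).congr (Eventually.of_forall fun x => ?_)
          simp only [star_smul, smul_smul, star_neg, Complex.star_def, Complex.conj_natCast]
          congr 1
          ring
        · have h1 : ((kk n : ℂ) • (-T)) x = (-(kk n : ℂ)) • T x := by
            show (kk n : ℂ) • (-(T x)) = _
            rw [smul_neg, neg_smul]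
          rw [h1, map_smul]
          filter_upwards [hT x, Lp.coeFn_smul (-(kk n : ℂ)) (j (T x))] with z e3 e4
          rw [e4, Pi.smul_apply, e3]
          rfl
    rw [e0] at e2
    rw [e2, ← e1]
    refine (pr_bound _ _).trans ?_
    calc _ ≤ (K2 * Real.exp ((-b + η) * kk n)) *
          (‖j‖ * (‖Q‖ * (‖i‖ * (K1 * Real.exp ((a + η) * kk n))))) := by
          refine mul_le_mul (gr2 n) ((j.le_opNorm _).trans ?_) (norm_nonneg _) (by positivity)
          refine mul_le_mul_of_nonneg_left ((Q.le_opNorm _).trans ?_) (norm_nonneg _)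
          exact mul_le_mul_of_nonneg_left (gr1 n) (norm_nonneg _)
      _ = K1 * K2 * ‖Q‖ * ‖i‖ * ‖j‖ *
          (Real.exp ((-b + η) * kk n) * Real.exp ((a + η) * kk n)) := by ring
      _ = _ := by
          rw [← Real.exp_add]
          congr 2
          rw [hη]
          ring
  have lim4 : Tendsto (fun n => pr (w n) (j (Q (i (y n))))) atTop (𝓝 0) := by
    refine squeeze_zero_norm dec ?_
    have e1 : Tendsto (fun i => -(2 * η) * (kk i : ℝ)) atTop atBot := by
      refine Tendsto.const_mul_atTop_of_neg (by linarith) ?_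
      exact tendsto_natCast_atTop_atTop.comp hkkm.tendsto_atTop
    have e2 := (Real.tendsto_exp_atBot.comp e1).const_mul (K1 * K2 * ‖Q‖ * ‖i‖ * ‖j‖)
    rwa [mul_zero] at e2
  exact tendsto_nhds_unique lim3 lim4

/-- hyperinvariant subspaces -/
def HH {E : Type} [NormedAddCommGroup E] [NormedSpace ℂ E] (T : E →L[ℂ] E) : Prop :=
  ∃ V : Submodule ℂ E, IsClosed (V : Set E) ∧ V ≠ ⊥ ∧ V ≠ ⊤ ∧
    ∀ Q : E →L[ℂ] E, Q * T = T * Q → ∀ x ∈ V, Q x ∈ V

/-- hyperinvariant subspaces from growth data -/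
theorem hyp_of_gdata {S : X ≃ᵐ X} (hS : MeasurePreserving S μ μ) {Φ : X → F →L[ℂ] F}
    (hΦ : StronglyMeasurable Φ) {R : ℝ}
    (hR : ∀ x, ‖Φ x‖ ≤ R) {T2 : Lp F 2 μ →L[ℂ] Lp F 2 μ} (hT2 : Act 2 Φ S T2) (z : ℂ)
    (hG : GData (z • T2))
    {E : Type} [NormedAddCommGroup E] [NormedSpace ℂ E] [CompleteSpace E]
    {j : E →L[ℂ] Lp F 1 μ} {i : Lp F ∞ μ →L[ℂ] E} (hE : FSp j i) {T : E →L[ℂ] E}
    (hT : ∀ f : E, (j (T f) : X → F) =ᵐ[μ] fun x => Φ x ((j f : X → F) (S x))) : HH T := by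
  obtain ⟨f, h, hf, hh, hfh⟩ := hyp_aux hS (Φ := fun x => z • Φ x) (hΦ.const_smul z)
    (R := ‖z‖ * R) (fun x => by
      rw [norm_smul]
      exact mul_le_mul_of_nonneg_left (hR x) (norm_nonneg _)) (hT2.smul z) hG hE (T := z • T)
    (fun f => by
      have h1 : (z • T) f = z • T f := rfl
      rw [h1, map_smul]
      filter_upwards [hT f, Lp.coeFn_smul z (j (T f))] with x e1 e2
      rw [e2, Pi.smul_apply, e1]
      rfl)
  let V : Submodule ℂ E :=
    { carrier := {x | ∀ Q : E →L[ℂ] E, Q * T = T * Q → pr h (j (Q x)) = 0}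
      add_mem' := by
        intro x y hx hy Q hQ
        rw [map_add, map_add, pr_add_right, hx Q hQ, hy Q hQ, add_zero]
      zero_mem' := by
        intro Q _
        have := pr_smul_right h 0 (0 : Lp F 1 μ)
        rw [map_zero, map_zero]
        rwa [zero_smul, zero_mul] at this
      smul_mem' := by
        intro c x hx Q hQ
        rw [map_smul, map_smul, pr_smul_right, hx Q hQ, mul_zero] }
  have hc : Continuous fun x : Lp F 1 μ => pr h x :=
    AddMonoidHomClass.continuous_of_bound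
      (AddMonoidHom.mk' (fun x : Lp F 1 μ => pr h x) (pr_add_right h)) ‖h‖ (pr_bound h)
  refine ⟨V, ?_, ?_, ?_, ?_⟩
  · have : (V : Set E) = ⋂ (Q : E →L[ℂ] E) (_ : Q * T = T * Q), {x | pr h (j (Q x)) = 0} := by
      ext x
      simp only [Set.mem_iInter, Set.mem_ofPred_eq]
      exact Iff.rfl
    rw [this]
    exact isClosed_iInter fun Q => isClosed_iInter fun _ =>
      isClosed_eq (hc.comp (j.continuous.comp Q.continuous)) continuous_const
  · intro h0
    have h1 : i f ∈ V := by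
      intro Q hQ
      refine hfh Q ?_
      rw [mul_smul_comm, smul_mul_assoc, hQ]
    rw [h0, Submodule.mem_bot] at h1
    apply hf
    rw [Lp.eq_zero_iff_ae_eq_zero]
    have h2 := hE.incl f
    rw [h1, map_zero] at h2
    filter_upwards [h2, Lp.coeFn_zero F 1 μ] with x e1 e2
    rw [← e1, e2]
  · intro h0
    have h1 : i h ∈ V := by
      rw [h0]
      trivial
    have h2 : pr h (j (i h)) = 0 := h1 1 (by rw [one_mul, mul_one])
    have h3 : ∫ x, ‖(h : X → F) x‖ ^ 2 ∂μ = 0 := by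
      have h4 : ((∫ x, ‖(h : X → F) x‖ ^ 2 ∂μ : ℝ) : ℂ) = 0 := by
        rw [← integral_complex_ofReal, ← h2]
        refine integral_congr_ae ?_
        filter_upwards [hE.incl h] with x e1
        rw [e1, inner_self_eq_norm_sq_to_K]
        push_cast
        rfl
      exact_mod_cast h4
    have h5 : Integrable (fun x => ‖(h : X → F) x‖ ^ 2) μ := by
      refine (integrable_const (‖h‖ ^ 2)).mono' ((Lp.memLp h).1.norm.pow 2) ?_
      filter_upwards [norm_infty h] with x hx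
      rw [Real.norm_eq_abs, abs_of_nonneg (sq_nonneg _)]
      gcongr
    rw [integral_eq_zero_iff_of_nonneg (fun x => sq_nonneg _) h5] at h3
    apply hh
    rw [Lp.eq_zero_iff_ae_eq_zero]
    filter_upwards [h3] with x hx
    have : ‖(h : X → F) x‖ ^ 2 = 0 := hx
    simpa using this
  · intro Q hQ x hx Q' hQ'
    have := hx (Q' * Q) (by rw [mul_assoc, hQ, ← mul_assoc, hQ', mul_assoc])
    exact this

/-- bounded convergence in `L^p` -/
theorem tendsto_bdd {p : ℝ≥0∞} [hp : Fact (1 ≤ p)] (hp' : p ≠ ∞) (y : ℕ → Lp F p μ) (f : Lp F p μ)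
    (K : ℝ) (hb : ∀ᵐ x ∂μ, ∀ i, ‖(y i : X → F) x‖ ≤ K)
    (hl : ∀ᵐ x ∂μ, Tendsto (fun i => (y i : X → F) x) atTop (𝓝 ((f : X → F) x))) :
    Tendsto y atTop (𝓝 f) := by
  have hp0 : p ≠ 0 := (lt_of_lt_of_le one_pos hp.1).ne'
  have hpr : 0 < p.toReal := ENNReal.toReal_pos hp0 hp'
  rw [tendsto_iff_norm_sub_tendsto_zero]
  have h1 : ∀ i, ‖y i - f‖ = (eLpNorm (fun x => (y i : X → F) x - (f : X → F) x) p μ).toReal := by
    intro i
    rw [Lp.norm_def]
    congr 1
    exact eLpNorm_congr_ae (Lp.coeFn_sub (y i) f)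
  simp_rw [h1]
  rw [← ENNReal.toReal_zero]
  refine (ENNReal.tendsto_toReal ENNReal.zero_ne_top).comp ?_
  simp_rw [eLpNorm_eq_lintegral_rpow_enorm_toReal hp0 hp']
  have h2 : Tendsto (fun i => ∫⁻ x, ‖(y i : X → F) x - (f : X → F) x‖ₑ ^ p.toReal ∂μ) atTop
      (𝓝 (∫⁻ _, 0 ∂μ)) := by
    refine tendsto_lintegral_of_dominated_convergence'
      (fun _ => (ENNReal.ofReal (2 * K)) ^ p.toReal) (fun i => ?_) (fun i => ?_) ?_ ?_
    · exact ((((Lp.memLp (y i)).1.sub (Lp.memLp f).1).enorm).pow_const _)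
    · filter_upwards [hb, hl] with x h3 h4
      refine ENNReal.rpow_le_rpow ?_ hpr.le
      rw [← ofReal_norm]
      refine ENNReal.ofReal_le_ofReal ?_
      have h5 : ‖(f : X → F) x‖ ≤ K := le_of_tendsto h4.norm (Eventually.of_forall h3)
      calc _ ≤ ‖(y i : X → F) x‖ + ‖(f : X → F) x‖ := norm_sub_le _ _
        _ ≤ 2 * K := by linarith [h3 i]
    · rw [lintegral_const, measure_univ, mul_one]
      exact ENNReal.rpow_ne_top_of_nonneg hpr.le ENNReal.ofReal_ne_top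
    · filter_upwards [hl] with x h4
      have h5 : Tendsto (fun i => ‖(y i : X → F) x - (f : X → F) x‖ₑ) atTop (𝓝 0) := by
        have := (h4.sub_const ((f : X → F) x)).enorm
        simpa using this
      have h6 := ((ENNReal.continuous_rpow_const (y := p.toReal)).tendsto 0).comp h5
      rw [ENNReal.zero_rpow_of_pos hpr] at h6
      exact h6
  rw [lintegral_zero] at h2
  have h7 := ((ENNReal.continuous_rpow_const (y := 1 / p.toReal)).tendsto 0).comp h2
  rw [ENNReal.zero_rpow_of_pos (by positivity)] at h7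
  exact h7

/-- `L^p` is such a space -/
theorem fsp_Lp (p : ℝ≥0∞) [hp : Fact (1 ≤ p)] (hp' : p ≠ ∞) :
    FSp (incl μ F 1 p hp.1) (incl μ F p ∞ le_top) := by
  refine ⟨fun f hf => ?_, fun f => ?_, fun f g K hK hl => ?_⟩
  · rw [Lp.eq_zero_iff_ae_eq_zero] at hf ⊢
    exact hf
  · exact Eventually.of_forall fun x => rfl
  · refine tendsto_bdd hp' _ _ K ?_ ?_
    · rw [ae_all_iff]
      intro n
      filter_upwards [norm_infty (f n)] with x hx
      exact hx.trans (hK n)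
    · exact hl

end

end Pool.Agent.TH550.LV
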