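import Pool.Agent.TH550.LV.Gen
import Pool.Agent.H712R5.BO.Z2

/-!
Bishop operators on `L^p` (helper550).
-/

set_option autoImplicit false
open scoped ComplexConjugate InnerProductSpace Topology ENNReal
open Filter MeasureTheory NormedSpace

namespace Pool.Agent.TH550.LV

/-- Lebesgue measure on `[0,1)` -/
noncomputable abbrev leb : Measure ℝ := volume.restrict (Set.Ico (0:ℝ) 1)

instance : IsProbabilityMeasure leb := ⟨by
  rw [Measure.restrict_apply_univ, Real.volume_Ico]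
  simp⟩

theorem fract_fract_sub (x α : ℝ) : Int.fract (Int.fract x - α) = Int.fract (x - α) := by
  have : Int.fract x - α = (x - α) - ((⌊x⌋ : ℤ) : ℝ) := by
    unfold Int.fract
    ring
  rw [this, Int.fract_sub_intCast]

/-- the rotation of `[0,1)`, extended by the identity -/
noncomputable def rot (α : ℝ) : ℝ ≃ᵐ ℝ where
  toFun x := if x ∈ Set.Ico (0:ℝ) 1 then Int.fract (x + α) else x
  invFun x := if x ∈ Set.Ico (0:ℝ) 1 then Int.fract (x - α) else x
  left_inv := by
    intro x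
    by_cases hx : x ∈ Set.Ico (0:ℝ) 1
    · have h1 : Int.fract (x + α) ∈ Set.Ico (0:ℝ) 1 := ⟨Int.fract_nonneg _, Int.fract_lt_one _⟩
      simp only [hx, if_true, h1]
      rw [fract_fract_sub, add_sub_cancel_right]
      exact Int.fract_eq_self.2 hx
    · simp only [hx, if_false]
  right_inv := by
    intro x
    by_cases hx : x ∈ Set.Ico (0:ℝ) 1
    · have h1 : Int.fract (x - α) ∈ Set.Ico (0:ℝ) 1 := ⟨Int.fract_nonneg _, Int.fract_lt_one _⟩
      simp only [hx, if_true, h1]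
      have := fract_fract_sub (x - α) (-α)
      rw [sub_neg_eq_add, sub_neg_eq_add, sub_add_cancel] at this
      rw [this]
      exact Int.fract_eq_self.2 hx
    · simp only [hx, if_false]
  measurable_toFun := Measurable.ite measurableSet_Ico
    (measurable_fract.comp (measurable_id.add_const _)) measurable_id
  measurable_invFun := Measurable.ite measurableSet_Ico
    (measurable_fract.comp (measurable_id.sub_const _)) measurable_id

theorem rot_ae (α : ℝ) : (rot α : ℝ → ℝ) =ᵐ[leb] fun x => Int.fract (x + α) := by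
  filter_upwards [ae_restrict_mem (measurableSet_Ico (a := (0:ℝ)) (b := 1))] with x hx
  show (if x ∈ Set.Ico (0:ℝ) 1 then Int.fract (x + α) else x) = _
  rw [if_pos hx]

theorem rot_mp (α : ℝ) : MeasurePreserving (rot α) leb leb := by
  have h := Pool.Agent.H712R5.BO.t_Z2 α
  refine ⟨(rot α).measurable, ?_⟩
  rw [Measure.map_congr (rot_ae α)]
  exact h.map_eq

theorem log_int : Integrable (fun x : ℝ => Real.log ‖((x : ℝ) : ℂ)‖) leb := by
  have h1 : IntervalIntegrable Real.log volume 0 1 := intervalIntegral.intervalIntegrable_log'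
  rw [intervalIntegrable_iff_integrableOn_Ico_of_le zero_le_one] at h1
  have h2 : Integrable Real.log leb := h1
  refine h2.congr (Eventually.of_forall fun x => ?_)
  simp only [Complex.norm_real, Real.norm_eq_abs, Real.log_abs]

theorem leb_ne (c : ℂ) : ¬ ∀ᵐ x ∂leb, ((x : ℝ) : ℂ) = c := by
  intro h
  have h1 : ∀ᵐ x ∂leb, x ∈ ({c.re} : Set ℝ) := by
    filter_upwards [h] with x hx
    rw [Set.mem_singleton_iff, ← hx, Complex.ofReal_re]
  have h2 : leb {c.re}ᶜ = 0 := by
    rw [ae_iff] at h1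
    exact h1
  have h3 : leb {c.re} = 0 := measure_singleton _
  have h4 : leb Set.univ = 0 := by
    rw [← Set.union_compl_self {c.re}]
    exact measure_union_null h3 h2
  rw [measure_univ] at h4
  exact one_ne_zero h4

/-- the Bishop operators on `L^p` -/
theorem bishop_hyp (α : ℝ) (p : ℝ≥0∞) [hp : Fact (1 ≤ p)] (hp' : p ≠ ∞)
    (T : Lp ℂ p leb →L[ℂ] Lp ℂ p leb)
    (hT : ∀ f : Lp ℂ p leb, (T f : ℝ → ℂ) =ᵐ[leb]
      fun x => ((x : ℝ) : ℂ) * (f : ℝ → ℂ) (Int.fract (x + α))) : HH T := by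
  set φ : ℝ → ℂ := fun x => if x ∈ Set.Ico (0:ℝ) 1 then ((x : ℝ) : ℂ) else 1 with hφ
  have hφm : Measurable φ := Measurable.ite measurableSet_Ico Complex.measurable_ofReal
    measurable_const
  have hφR : ∀ x, ‖φ x‖ ≤ 1 := by
    intro x
    by_cases hx : x ∈ Set.Ico (0:ℝ) 1
    · simp only [hφ, hx, if_true, Complex.norm_real, Real.norm_eq_abs, abs_of_nonneg hx.1]
      exact hx.2.le
    · simp only [hφ, hx, if_false, norm_one]
      exact le_rfl
  have hφa : φ =ᵐ[leb] fun x => ((x : ℝ) : ℂ) := by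
    filter_upwards [ae_restrict_mem (measurableSet_Ico (a := (0:ℝ)) (b := 1))] with x hx
    simp only [hφ, hx, if_true]
  refine gen_hyp ℝ leb (rot α) (rot_mp α) φ 1 hφm hφR (fun _ => ?_) (Lp ℂ p leb)
    (incl leb ℂ 1 p hp.1) (incl leb ℂ p ∞ le_top) (fsp_Lp p hp') T (fun f => ?_) ?_
  · refine log_int.congr ?_
    filter_upwards [hφa] with x hx
    rw [hx]
  · show (T f : ℝ → ℂ) =ᵐ[leb] fun x => φ x * (f : ℝ → ℂ) (rot α x)
    filter_upwards [hT f, hφa, rot_ae α] with x e1 e2 e3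
    rw [e1, e2, e3]
  · rintro ⟨c, hc⟩
    apply leb_ne c
    have hmem : MemLp (fun _ : ℝ => (1:ℂ)) p leb := memLp_const 1
    set f : Lp ℂ p leb := hmem.toLp _ with hf
    have h1 : (f : ℝ → ℂ) =ᵐ[leb] fun _ => (1:ℂ) := MemLp.coeFn_toLp hmem
    have h2 := hT f
    have h3 := (Pool.Agent.H712R5.BO.t_Z2 α).quasiMeasurePreserving.ae_eq_comp h1
    have h4 : T f = c • f := by rw [hc]; rfl
    rw [h4] at h2
    filter_upwards [h1, h2, h3, Lp.coeFn_smul c f] with x e1 e2 e3 e4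
    simp only [Function.comp_apply] at e3
    rw [e4, Pi.smul_apply, e1, e3, mul_one, smul_eq_mul, mul_one] at e2
    exact e2.symm

/-- existence of the Bishop operators on `L^p` -/
theorem bishop_exists (α : ℝ) (p : ℝ≥0∞) [hp : Fact (1 ≤ p)] :
    ∃ T : Lp ℂ p leb →L[ℂ] Lp ℂ p leb, ∀ f : Lp ℂ p leb, (T f : ℝ → ℂ) =ᵐ[leb]
      fun x => ((x : ℝ) : ℂ) * (f : ℝ → ℂ) (Int.fract (x + α)) := by
  set φ : ℝ → (ℂ →L[ℂ] ℂ) := fun x => (if x ∈ Set.Ico (0:ℝ) 1 then ((x : ℝ) : ℂ) else 1) •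
    (1 : ℂ →L[ℂ] ℂ) with hφ
  have hφm : Measurable fun x : ℝ => (if x ∈ Set.Ico (0:ℝ) 1 then ((x : ℝ) : ℂ) else 1) :=
    Measurable.ite measurableSet_Ico Complex.measurable_ofReal measurable_const
  have hφR : ∀ x, ‖φ x‖ ≤ 1 := by
    intro x
    have h0 : ‖(if x ∈ Set.Ico (0:ℝ) 1 then ((x : ℝ) : ℂ) else 1)‖ ≤ 1 := by
      by_cases hx : x ∈ Set.Ico (0:ℝ) 1
      · simp only [hx, if_true, Complex.norm_real, Real.norm_eq_abs, abs_of_nonneg hx.1]
        exact hx.2.le
      · simp only [hx, if_false, norm_one]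
        exact le_rfl
    rw [hφ]
    simp only
    rw [norm_smul]
    calc _ ≤ (1:ℝ) * 1 := mul_le_mul h0 ContinuousLinearMap.norm_id_le (norm_nonneg _) zero_le_one
      _ = 1 := mul_one 1
  obtain ⟨T, hT, -⟩ := exists_act (μ := leb) p (hφm.stronglyMeasurable.smul_const _) zero_le_one hφR
    (Pool.Agent.H712R5.BO.t_Z2 α)
  refine ⟨T, fun f => ?_⟩
  filter_upwards [hT f, ae_restrict_mem (measurableSet_Ico (a := (0:ℝ)) (b := 1))] with x e1 hx
  rw [e1]
  show (if x ∈ Set.Ico (0:ℝ) 1 then ((x : ℝ) : ℂ) else 1) • (f : ℝ → ℂ) (Int.fract (x + α)) = _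
  rw [if_pos hx, smul_eq_mul]

end Pool.Agent.TH550.LV
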