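import Pool.Agent.TH550.LV.Asm
import Pool.Agent.H270R3.CT.RW
import Pool.Agent.H606RW.R5

/-!
Weighted translations with log-integrable weight: growth data on `L²` from the field theorem of the
starting library (helper550; the set-up follows the files `Pool.Agent.H270R3.CT.RW`, `Mat`).
-/

set_option autoImplicit false
open scoped ComplexConjugate InnerProductSpace Topology ENNReal
open Filter MeasureTheory NormedSpace

namespace Pool.Agent.TH550.LV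
open Pool.Agent.H712R5.BO Pool.Agent.H270R3.CT Pool.Agent.TH550.LP

section
variable {H K : Type} [NormedAddCommGroup H] [InnerProductSpace ℂ H] [CompleteSpace H]
  [NormedAddCommGroup K] [InnerProductSpace ℂ K] [CompleteSpace K]

theorem exp_trn (J : H ≃ₗᵢ[ℂ] K) (T : H →L[ℂ] H) (T' : K →L[ℂ] K) (h : ∀ x, T' x = J (T (J.symm x)))
    (c : ℂ) (x : K) : J.symm (exp (c • T') x) = exp (c • T) (J.symm x) := by
  refine exp_int (J.symm.toLinearEquiv : K →+ H) (fun r x => ?_) J.symm.continuous _ _ (fun x => ?_) x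
  · exact J.symm.map_smul _ _
  · show J.symm (c • T' x) = c • T (J.symm x)
    rw [J.symm.map_smul, h, J.symm_apply_apply]

theorem _root_.Pool.Agent.TH550.LP.GData.trn {J : H ≃ₗᵢ[ℂ] K} {T : H →L[ℂ] H} {T' : K →L[ℂ] K}
    (h : ∀ x, T' x = J (T (J.symm x))) (hs : ∀ x, star T' x = J (star T (J.symm x)))
    (hG : GData T') : GData T := by
  obtain ⟨k, v, g, f, h', a, b, C, hk, hab, hf, hh, hv, hg, hev, heg⟩ := hG
  refine ⟨k, fun i => J.symm (v i), fun i => J.symm (g i), J.symm f, J.symm h', a, b, C, hk, hab, ?_,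
    ?_, ?_, ?_, fun i => ?_, fun i => ?_⟩
  · simpa using hf
  · simpa using hh
  · exact (J.symm.continuous.tendsto _).comp hv
  · exact (J.symm.continuous.tendsto _).comp hg
  · rw [← exp_trn J T T' h, LinearIsometryEquiv.norm_map]
    exact hev i
  · have hs' : ∀ x, (-star T') x = J ((-star T) (J.symm x)) := fun x => by
      show -(star T' x) = J (-(star T (J.symm x)))
      rw [map_neg, hs]
    rw [← exp_trn J (-star T) (-star T') hs', LinearIsometryEquiv.norm_map]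
    exact heg i

end

theorem mat_gdata (X : Type) [MeasurableSpace X] [MeasurableSpace.CountablyGenerated X]
    (μ : Measure X) [IsProbabilityMeasure μ] (d : ℕ) (hd : 1 ≤ d) (S : X ≃ᵐ X)
    (hS : MeasurePreserving S μ μ)
    (hap : ∀ n : ℕ, 1 ≤ n → ∃ B : Set X, MeasurableSet B ∧ ¬ ((S^[n]) ⁻¹' B =ᵐ[μ] B))
    (Φ : X → (Ed d →L[ℂ] Ed d)) (R : ℝ) (hΦm : StronglyMeasurable Φ) (hΦR : ∀ x, ‖Φ x‖ ≤ R)
    (g : X → ℝ) (hg : Measurable g) (hg0 : ∀ x, 0 < g x) (hgΦ : ∀ x w, g x * ‖w‖ ≤ ‖Φ x w‖)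
    (hgi : Integrable (fun x => Real.log (g x)) μ)
    (T : L2d μ d →L[ℂ] L2d μ d)
    (hT : ∀ f : L2d μ d, (T f : X → Ed d) =ᵐ[μ] fun x => Φ x ((f : X → Ed d) (S x))) :
    ∃ z : ℂ, GData (z • T) := by
  have hΦ : MB d Φ R := ⟨hΦm, hΦR⟩
  obtain ⟨v, hTV, hv1, htr, hsc, htot⟩ := M2.t_M2 M1.t_M1 X μ d hd
  obtain ⟨⟨u, hu⟩, hK⟩ := M3.t_M3 X μ d S hS
  obtain ⟨hfix, hconj⟩ := hK u hu
  have : Fact ((2 : ENNReal) ≠ ⊤) := ⟨by norm_num⟩
  have hD : Dt (NM μ d) u v := by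
    refine ⟨?_, ?_, fun j => hfix v hTV j, hv1, ?_, ?_, ?_⟩
    · rintro f ⟨Ψ, R', hΨ, hf⟩
      exact ⟨fun x => Ψ (S x), R', ⟨hΨ.meas.comp_measurable S.measurable, fun x => hΨ.bd _⟩,
        (hconj Ψ f hf).1⟩
    · rintro f ⟨Ψ, R', hΨ, hf⟩
      exact ⟨fun x => Ψ (S.symm x), R', ⟨hΨ.meas.comp_measurable S.symm.measurable,
        fun x => hΨ.bd _⟩, (hconj Ψ f hf).2⟩
    · rintro f ⟨Ψ, R', hΨ, hf⟩ g ⟨Ψ', R'', hΨ', hg⟩
      exact htr Ψ Ψ' (max R' R'') f g ⟨hΨ.meas, fun x => (hΨ.bd x).trans (le_max_left _ _)⟩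
        ⟨hΨ'.meas, fun x => (hΨ'.bd x).trans (le_max_right _ _)⟩ hf hg
    · intro w hw
      exact htot w fun Ψ R' A hΨ hA j => hw A ⟨Ψ, R', hΨ, hA⟩ j
    · intro n hn
      obtain ⟨c, hc1, hc2⟩ := M4.t_M4 X μ d hd S hS hap u hu n hn
      exact ⟨c, fun f ⟨Ψ, R', _, hf⟩ => hc1 Ψ f hf, hc2⟩
  have hTN : T * star (u : L2d μ d →L[ℂ] L2d μ d) ∈ NM μ d := by
    refine ⟨Φ, R, hΦ, fun f => ?_⟩
    have h1 := hT ((star (u : L2d μ d →L[ℂ] L2d μ d)) f)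
    have h2 := hS.quasiMeasurePreserving.ae_eq_comp (hu.h2 f)
    filter_upwards [h1, h2] with x h3 h4
    show (T ((star (u : L2d μ d →L[ℂ] L2d μ d)) f) : X → Ed d) x = _
    rw [h3]
    simp only [Function.comp_apply, MeasurableEquiv.symm_apply_apply] at h4
    rw [h4]
  have hg' : Measurable fun x => min (g x) 1 := hg.min measurable_const
  have hg1 : ∀ x, 0 < min (g x) 1 ∧ min (g x) 1 ≤ 1 := fun x =>
    ⟨lt_min (hg0 x) one_pos, min_le_right _ _⟩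
  have hgΦ' : ∀ x w, min (g x) 1 * ‖w‖ ≤ ‖Φ x w‖ := fun x w =>
    (mul_le_mul_of_nonneg_right (min_le_left _ _) (norm_nonneg _)).trans (hgΦ x w)
  have hgi' : Integrable (fun x => Real.log (min (g x) 1)) μ := by
    have : (fun x => Real.log (min (g x) 1)) = fun x => min (Real.log (g x)) 0 := by
      funext x
      rcases le_total (g x) 1 with h | h
      · rw [min_eq_left h, min_eq_left (Real.log_nonpos (hg0 x).le h)]
      · rw [min_eq_right h, Real.log_one, min_eq_right (Real.log_nonneg h)]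
    rw [this]
    exact hgi.inf (integrable_const 0)
  obtain ⟨r, hr, hF⟩ := fld hD T hTN
    ⟨2 * ∫ x, Real.log (min (g x) 1) ∂μ, fun k δ _ hδ =>
      low_tr hS hΦ hT hg' hg1 hgΦ' hgi' v hsc k δ hδ⟩
  obtain ⟨θ, hθ⟩ := fld_gdata hD ((r : ℂ) • T) hF
  refine ⟨(fourier 1 θ : ℂ) * (r : ℂ), ?_⟩
  rw [← smul_smul]
  exact hθ

theorem wt_gdata (X : Type) [MeasurableSpace X] [MeasurableSpace.CountablyGenerated X]
    (μ : Measure X) [IsProbabilityMeasure μ] (S : X ≃ᵐ X) (hSp : MeasurePreserving S μ μ)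
    (hap : ∀ n : ℕ, 1 ≤ n → ∃ B : Set X, MeasurableSet B ∧ ¬ ((S^[n]) ⁻¹' B =ᵐ[μ] B))
    (φ : X → ℂ) (R : ℝ) (hφm : Measurable φ) (hφR : ∀ x, ‖φ x‖ ≤ R) (hφn : ∀ x, φ x ≠ 0)
    (hφi : Integrable (fun x => Real.log ‖φ x‖) μ)
    (T : Lp ℂ 2 μ →L[ℂ] Lp ℂ 2 μ)
    (hT : ∀ f : Lp ℂ 2 μ, (T f : X → ℂ) =ᵐ[μ] fun x => φ x * (f : X → ℂ) (S x)) :
    ∃ z : ℂ, GData (z • T) := by
  obtain ⟨J, hJ1, hJ2⟩ := taskR5 X μ
  set T' : L2d μ 1 →L[ℂ] L2d μ 1 := Pool.Agent.H270R3.CT.trn J T with hT'def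
  set Φ : X → (Ed 1 →L[ℂ] Ed 1) := fun x => φ x • (1 : Ed 1 →L[ℂ] Ed 1) with hΦdef
  have hT' : ∀ f : L2d μ 1, (T' f : X → Ed 1) =ᵐ[μ] fun x => Φ x ((f : X → Ed 1) (S x)) := by
    intro f
    have e1 := hJ1 (T (J.symm f))
    have e2 := hT (J.symm f)
    have e3 := hSp.quasiMeasurePreserving.ae_eq_comp (hJ2 f)
    filter_upwards [e1, e2, e3] with x e4 e5 e6
    simp only [Function.comp_apply] at e6
    rw [hT'def, trn_apply, e4, e5, e6, Ed1]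
    rfl
  have hg0 : ∀ x, 0 < ‖φ x‖ := fun x => norm_pos_iff.2 (hφn x)
  obtain ⟨z, hz⟩ := mat_gdata X μ 1 le_rfl S hSp hap Φ R (hφm.stronglyMeasurable.smul_const _)
    (fun x => by
      rw [hΦdef]
      simp only
      rw [norm_smul]
      calc ‖φ x‖ * ‖(1 : Ed 1 →L[ℂ] Ed 1)‖ ≤ R * 1 :=
            mul_le_mul (hφR x) ContinuousLinearMap.norm_id_le (norm_nonneg _)
              ((norm_nonneg _).trans (hφR x))
        _ = R := mul_one R) (fun x => ‖φ x‖) hφm.norm hg0 (fun x w => by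
      have : Φ x w = φ x • w := rfl
      rw [this, norm_smul]) hφi T' hT'
  refine ⟨z, GData.trn (J := J) (T' := z • T') ?_ ?_ hz⟩
  · intro x
    show z • (J (T (J.symm x))) = J (z • T (J.symm x))
    rw [J.map_smul]
  · intro x
    rw [star_smul, star_smul, hT'def, star_trn]
    show star z • (J (star T (J.symm x))) = J (star z • (star T (J.symm x)))
    rw [J.map_smul]

/-- hyperinvariant subspaces: matrix weights, aperiodic case -/
theorem mat_hyp (X : Type) [MeasurableSpace X] [MeasurableSpace.CountablyGenerated X]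
    (μ : Measure X) [IsProbabilityMeasure μ] (d : ℕ) (hd : 1 ≤ d) (S : X ≃ᵐ X)
    (hS : MeasurePreserving S μ μ)
    (hap : ∀ n : ℕ, 1 ≤ n → ∃ B : Set X, MeasurableSet B ∧ ¬ ((S^[n]) ⁻¹' B =ᵐ[μ] B))
    (Φ : X → (Ed d →L[ℂ] Ed d)) (R : ℝ) (hΦm : StronglyMeasurable Φ) (hΦR : ∀ x, ‖Φ x‖ ≤ R)
    (g : X → ℝ) (hg : Measurable g) (hg0 : ∀ x, 0 < g x) (hgΦ : ∀ x w, g x * ‖w‖ ≤ ‖Φ x w‖)
    (hgi : Integrable (fun x => Real.log (g x)) μ)
    (E : Type) [NormedAddCommGroup E] [NormedSpace ℂ E] [CompleteSpace E]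
    (j : E →L[ℂ] Lp (Ed d) 1 μ) (i : Lp (Ed d) ∞ μ →L[ℂ] E) (hE : FSp j i) (T : E →L[ℂ] E)
    (hT : ∀ f : E, (j (T f) : X → Ed d) =ᵐ[μ] fun x => Φ x ((j f : X → Ed d) (S x))) : HH T := by
  have hR0 : 0 ≤ R := by
    obtain ⟨x⟩ := prob_nonempty μ
    exact (norm_nonneg _).trans (hΦR x)
  obtain ⟨T2, hT2, -⟩ := exists_act (μ := μ) 2 hΦm hR0 hΦR hS
  obtain ⟨z, hz⟩ := mat_gdata X μ d hd S hS hap Φ R hΦm hΦR g hg hg0 hgΦ hgi T2 hT2
  exact hyp_of_gdata hS hΦm hΦR hT2 z hz hE hT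

/-- hyperinvariant subspaces: scalar weights, aperiodic case -/
theorem wt_hyp (X : Type) [MeasurableSpace X] [MeasurableSpace.CountablyGenerated X]
    (μ : Measure X) [IsProbabilityMeasure μ] (S : X ≃ᵐ X) (hSp : MeasurePreserving S μ μ)
    (hap : ∀ n : ℕ, 1 ≤ n → ∃ B : Set X, MeasurableSet B ∧ ¬ ((S^[n]) ⁻¹' B =ᵐ[μ] B))
    (φ0 : X → ℂ) (R0 : ℝ) (hφ0m : Measurable φ0) (hφ0R : ∀ x, ‖φ0 x‖ ≤ R0)
    (hφ00 : ∀ᵐ x ∂μ, φ0 x ≠ 0) (hφ0i : Integrable (fun x => Real.log ‖φ0 x‖) μ)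
    (E : Type) [NormedAddCommGroup E] [NormedSpace ℂ E] [CompleteSpace E]
    (j : E →L[ℂ] Lp ℂ 1 μ) (i : Lp ℂ ∞ μ →L[ℂ] E) (hE : FSp j i) (T : E →L[ℂ] E)
    (hT0 : ∀ f : E, (j (T f) : X → ℂ) =ᵐ[μ] fun x => φ0 x * (j f : X → ℂ) (S x)) : HH T := by
  -- nonvanishing version
  set φ : X → ℂ := fun x => if φ0 x = 0 then 1 else φ0 x with hφ
  have hφφ : φ =ᵐ[μ] φ0 := by
    filter_upwards [hφ00] with x hx
    simp [hφ, hx]
  have hφm : Measurable φ :=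
    Measurable.ite (hφ0m (measurableSet_singleton 0)) measurable_const hφ0m
  set R : ℝ := max R0 1 with hR
  have hφR : ∀ x, ‖φ x‖ ≤ R := by
    intro x
    by_cases h : φ0 x = 0
    · simp [hφ, h, hR]
    · simpa [hφ, h, hR] using Or.inl (hφ0R x)
  have hφn : ∀ x, φ x ≠ 0 := by
    intro x
    by_cases h : φ0 x = 0
    · simp [hφ, h]
    · simp [hφ, h]
  have hφi : Integrable (fun x => Real.log ‖φ x‖) μ := by
    refine hφ0i.congr ?_
    filter_upwards [hφφ] with x hx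
    rw [hx]
  set Φ : X → (ℂ →L[ℂ] ℂ) := fun x => φ x • (1 : ℂ →L[ℂ] ℂ) with hΦdef
  have hΦa : ∀ x (w : ℂ), Φ x w = φ x * w := fun x w => rfl
  have hΦm : StronglyMeasurable Φ := hφm.stronglyMeasurable.smul_const _
  have hΦR : ∀ x, ‖Φ x‖ ≤ R := fun x => by
    rw [hΦdef]
    simp only
    rw [norm_smul]
    calc ‖φ x‖ * ‖(1 : ℂ →L[ℂ] ℂ)‖ ≤ R * 1 :=
          mul_le_mul (hφR x) ContinuousLinearMap.norm_id_le (norm_nonneg _)
            ((norm_nonneg _).trans (hφR x))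
      _ = R := mul_one R
  have hR0 : 0 ≤ R := by rw [hR]; positivity
  obtain ⟨T2, hT2, -⟩ := exists_act (μ := μ) 2 hΦm hR0 hΦR hSp
  obtain ⟨z, hz⟩ := wt_gdata X μ S hSp hap φ R hφm hφR hφn hφi T2 hT2
  refine hyp_of_gdata hSp hΦm hΦR hT2 z hz hE (fun f => ?_)
  filter_upwards [hT0 f, hφφ] with x e1 e2
  rw [e1, hΦa, e2]

end Pool.Agent.TH550.LV
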