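import Pool.Agent.TH550.LV.Gen

/-!
Matrix weights: transport to a general finite-dimensional space, weights singular on a set of positive
measure (helper550).
-/

set_option autoImplicit false
set_option linter.unusedSectionVars false
open scoped ComplexConjugate InnerProductSpace Topology ENNReal
open Filter MeasureTheory NormedSpace

namespace Pool.Agent.TH550.LV
open Pool.Agent.H712R5.BO Pool.Agent.H270R3.CT Pool.Agent.TH550.LP

section
variable {X : Type} [MeasurableSpace X] {μ : Measure X}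
  {F F' : Type} [NormedAddCommGroup F] [InnerProductSpace ℂ F]
  [NormedAddCommGroup F'] [InnerProductSpace ℂ F']

theorem exists_J (U : F ≃ₗᵢ[ℂ] F') : ∃ J : Lp F 2 μ ≃ₗᵢ[ℂ] Lp F' 2 μ,
    (∀ f : Lp F 2 μ, (J f : X → F') =ᵐ[μ] fun x => U ((f : X → F) x)) ∧
    (∀ f : Lp F' 2 μ, (J.symm f : X → F) =ᵐ[μ] fun x => U.symm ((f : X → F') x)) := by
  let L : F →L[ℂ] F' := U.toContinuousLinearEquiv
  let M : F' →L[ℂ] F := U.symm.toContinuousLinearEquiv
  let e : Lp F 2 μ ≃ₗ[ℂ] Lp F' 2 μ :=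
    { toFun := fun f => L.compLp f
      invFun := fun f => M.compLp f
      map_add' := fun f g => (L.compLpL 2 μ).map_add f g
      map_smul' := fun c f => (L.compLpL 2 μ).map_smul c f
      left_inv := by
        intro f
        apply Lp.ext
        filter_upwards [M.coeFn_compLp (L.compLp f), L.coeFn_compLp f] with x e1 e2
        rw [e1, e2]
        exact U.symm_apply_apply _
      right_inv := by
        intro f
        apply Lp.ext
        filter_upwards [L.coeFn_compLp (M.compLp f), M.coeFn_compLp f] with x e1 e2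
        rw [e1, e2]
        exact U.apply_symm_apply _ }
  have hn : ∀ f : Lp F 2 μ, ‖e f‖ = ‖f‖ := by
    intro f
    rw [Lp.norm_def, Lp.norm_def]
    congr 1
    refine eLpNorm_congr_norm_ae ?_
    filter_upwards [L.coeFn_compLp f] with x e1
    show ‖(L.compLp f : X → F') x‖ = _
    rw [e1]
    exact U.norm_map _
  exact ⟨⟨e, hn⟩, fun f => L.coeFn_compLp f, fun f => M.coeFn_compLp f⟩

end

theorem fin_gdata (X : Type) [MeasurableSpace X] [MeasurableSpace.CountablyGenerated X]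
    (μ : Measure X) [IsProbabilityMeasure μ]
    (F : Type) [NormedAddCommGroup F] [InnerProductSpace ℂ F] [FiniteDimensional ℂ F]
    [CompleteSpace F] [Nontrivial F] (S : X ≃ᵐ X)
    (hS : MeasurePreserving S μ μ)
    (hap : ∀ n : ℕ, 1 ≤ n → ∃ B : Set X, MeasurableSet B ∧ ¬ ((S^[n]) ⁻¹' B =ᵐ[μ] B))
    (Φ : X → (F →L[ℂ] F)) (R : ℝ) (hΦm : StronglyMeasurable Φ) (hΦR : ∀ x, ‖Φ x‖ ≤ R)
    (g : X → ℝ) (hg : Measurable g) (hg0 : ∀ x, 0 < g x) (hgΦ : ∀ x w, g x * ‖w‖ ≤ ‖Φ x w‖)
    (hgi : Integrable (fun x => Real.log (g x)) μ)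
    (T : Lp F 2 μ →L[ℂ] Lp F 2 μ)
    (hT : ∀ f : Lp F 2 μ, (T f : X → F) =ᵐ[μ] fun x => Φ x ((f : X → F) (S x))) :
    ∃ z : ℂ, GData (z • T) := by
  set d : ℕ := Module.finrank ℂ F with hd
  have hd1 : 1 ≤ d := Module.finrank_pos
  let U : F ≃ₗᵢ[ℂ] Ed d := (stdOrthonormalBasis ℂ F).repr
  obtain ⟨J, hJ1, hJ2⟩ := exists_J (X := X) (μ := μ) U
  let Cj : (F →L[ℂ] F) → (Ed d →L[ℂ] Ed d) := fun A =>
    (U.toContinuousLinearEquiv : F →L[ℂ] Ed d) ∘L A ∘L
      (U.symm.toContinuousLinearEquiv : Ed d →L[ℂ] F)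
  have hCj : ∀ A w, Cj A w = U (A (U.symm w)) := fun A w => rfl
  have hCjc : Continuous Cj := by
    refine Continuous.clm_comp continuous_const ?_
    exact Continuous.clm_comp continuous_id continuous_const
  set T' : L2d μ d →L[ℂ] L2d μ d := Pool.Agent.H270R3.CT.trn J T with hT'def
  have hT' : ∀ f : L2d μ d, (T' f : X → Ed d) =ᵐ[μ] fun x => Cj (Φ x) ((f : X → Ed d) (S x)) := by
    intro f
    have e1 := hJ1 (T (J.symm f))
    have e2 := hT (J.symm f)
    have e3 := hS.quasiMeasurePreserving.ae_eq_comp (hJ2 f)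
    filter_upwards [e1, e2, e3] with x e4 e5 e6
    simp only [Function.comp_apply] at e6
    rw [hT'def, trn_apply, e4, e5, e6, hCj]
  obtain ⟨z, hz⟩ := mat_gdata X μ d hd1 S hS hap (fun x => Cj (Φ x)) R
    (hCjc.comp_stronglyMeasurable hΦm)
    (fun x => by
      refine ContinuousLinearMap.opNorm_le_bound _ ((norm_nonneg _).trans (hΦR x)) fun w => ?_
      rw [hCj, U.norm_map, ← U.symm.norm_map w]
      exact ((Φ x).le_opNorm _).trans (mul_le_mul_of_nonneg_right (hΦR x) (norm_nonneg _)))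
    g hg hg0 (fun x w => by
      rw [hCj, U.norm_map, ← U.symm.norm_map w]
      exact hgΦ x _) hgi T' hT'
  refine ⟨z, GData.trn (J := J) (T' := z • T') ?_ ?_ hz⟩
  · intro x
    show z • (J (T (J.symm x))) = J (z • T (J.symm x))
    rw [J.map_smul]
  · intro x
    rw [star_smul, star_smul, hT'def, star_trn]
    show star z • (J (star T (J.symm x))) = J (star z • (star T (J.symm x)))
    rw [J.map_smul]

section
variable {F : Type} [NormedAddCommGroup F] [InnerProductSpace ℂ F] [FiniteDimensional ℂ F]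
    [CompleteSpace F]

theorem unit_of_star_inj (A : F →L[ℂ] F) (h : ∀ w, (star A : F →L[ℂ] F) w = 0 → w = 0) :
    IsUnit A := by
  rw [← isUnit_star, ContinuousLinearMap.isUnit_iff_bijective]
  have hinj : Function.Injective (star A : F →L[ℂ] F) := by
    intro x y hxy
    rw [← sub_eq_zero]
    apply h
    rw [map_sub, hxy, sub_self]
  exact ⟨hinj, (LinearMap.injective_iff_surjective (f := ((star A : F →L[ℂ] F) : F →ₗ[ℂ] F))).1 hinj⟩

variable {X : Type} [MeasurableSpace X] {μ : Measure X} [IsProbabilityMeasure μ]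

/-- weights which are singular on a set of positive measure -/
theorem sing_case {E : Type} [NormedAddCommGroup E] [NormedSpace ℂ E] [CompleteSpace E]
    {j : E →L[ℂ] Lp F 1 μ} {i : Lp F ∞ μ →L[ℂ] E} (hE : FSp j i)
    {S : X → X} {Φ : X → F →L[ℂ] F} (hΦ : StronglyMeasurable Φ) {R : ℝ} (hR : ∀ x, ‖Φ x‖ ≤ R)
    {T : E →L[ℂ] E}
    (hT : ∀ f : E, (j (T f) : X → F) =ᵐ[μ] fun x => Φ x ((j f : X → F) (S x)))
    (h0 : ¬ ∀ᵐ x ∂μ, IsUnit (Φ x)) (hT0 : T ≠ 0) : HH T := by
  -- the contraction whose fixed space is the kernel of the adjoint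
  set ρ : ℝ := 1 / (R ^ 2 + 1) with hρ
  have hρ0 : 0 < ρ := by positivity
  set K : X → F →L[ℂ] F := fun x => 1 - (ρ : ℂ) • (Φ x * star (Φ x)) with hK
  have hin : ∀ x w, ⟪w, (Φ x * star (Φ x)) w⟫_ℂ = ((‖star (Φ x) w‖ ^ 2 : ℝ) : ℂ) := by
    intro x w
    have h1 : (Φ x * star (Φ x)) w = Φ x (star (Φ x) w) := rfl
    rw [h1, ← ContinuousLinearMap.adjoint_inner_left, ← ContinuousLinearMap.star_eq_adjoint,
      inner_self_eq_norm_sq_to_K]
    push_cast
    rfl
  have hKn : ∀ x, ‖K x‖ ≤ 1 := by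
    intro x
    refine ContinuousLinearMap.opNorm_le_bound _ zero_le_one fun w => ?_
    rw [one_mul]
    have h1 : K x w = w - (ρ : ℂ) • (Φ x * star (Φ x)) w := rfl
    have h2 : ‖(Φ x * star (Φ x)) w‖ ≤ R * ‖star (Φ x) w‖ :=
      ((Φ x).le_opNorm _).trans (mul_le_mul_of_nonneg_right (hR x) (norm_nonneg _))
    have h3 : ‖K x w‖ ^ 2 ≤ ‖w‖ ^ 2 := by
      rw [h1, @norm_sub_sq ℂ, inner_smul_right, hin, norm_smul, Complex.norm_real,
        Real.norm_eq_abs, abs_of_pos hρ0]
      have h4 : RCLike.re ((ρ : ℂ) * ((‖star (Φ x) w‖ ^ 2 : ℝ) : ℂ)) = ρ * ‖star (Φ x) w‖ ^ 2 := by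
        rw [← Complex.ofReal_mul]
        exact Complex.ofReal_re _
      rw [h4]
      have h5 : (ρ * ‖(Φ x * star (Φ x)) w‖) ^ 2 ≤ ρ * ‖star (Φ x) w‖ ^ 2 := by
        calc (ρ * ‖(Φ x * star (Φ x)) w‖) ^ 2 ≤ (ρ * (R * ‖star (Φ x) w‖)) ^ 2 := by gcongr
          _ = ρ * ‖star (Φ x) w‖ ^ 2 * (ρ * R ^ 2) := by ring
          _ ≤ ρ * ‖star (Φ x) w‖ ^ 2 * 1 := by
              gcongr
              rw [hρ, one_div, inv_mul_le_iff₀ (by positivity)]
              linarith
          _ = _ := mul_one _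
      have h6 : 0 ≤ ρ * ‖star (Φ x) w‖ ^ 2 := by positivity
      linarith
    exact le_of_sq_le_sq h3 (norm_nonneg _)
  have hKm : StronglyMeasurable K := by
    rw [hK]
    exact stronglyMeasurable_const.sub ((hΦ.mul (continuous_star.comp_stronglyMeasurable hΦ)).const_smul
      (ρ : ℂ))
  -- the projections
  let P : F → X → F := fun e x =>
    (((K x).eqLocus (1 : F →L[ℂ] F)).orthogonalProjectionOnto e : F)
  have hPlim : ∀ e x, Tendsto (fun n => birkhoffAverage ℂ (K x) _root_.id n e) atTop (𝓝 (P e x)) :=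
    fun e x => ContinuousLinearMap.tendsto_birkhoffAverage_orthogonalProjection (K x) (hKn x) e
  have hPm : ∀ e, StronglyMeasurable (P e) := by
    intro e
    refine stronglyMeasurable_of_tendsto atTop
      (f := fun n x => birkhoffAverage ℂ (K x) _root_.id n e) (fun n => ?_)
      (tendsto_pi_nhds.2 fun x => hPlim e x)
    simp only [birkhoffAverage, birkhoffSum]
    refine StronglyMeasurable.const_smul ?_ ((n : ℂ)⁻¹)
    refine Finset.stronglyMeasurable_fun_sum _ fun k _ => ?_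
    have h1 : ∀ x, (_root_.id ((K x)^[k] e) : F) = (K x ^ k) e := fun x => by
      rw [id_eq]
      clear * -
      induction k with
      | zero => rfl
      | succ k ih => rw [Function.iterate_succ_apply', ih, pow_succ']; rfl
    simp_rw [h1]
    have h2 : StronglyMeasurable fun x => K x ^ k := hKm.pow k
    exact (ContinuousLinearMap.apply ℂ F e).continuous.comp_stronglyMeasurable h2
  have hPn : ∀ e x, ‖P e x‖ ≤ ‖e‖ := fun e x =>
    Submodule.norm_orthogonalProjectionOnto_apply_le _ _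
  have hPk : ∀ e x, star (Φ x) (P e x) = 0 := by
    intro e x
    have h1 : K x (P e x) = P e x :=
      (((K x).eqLocus (1 : F →L[ℂ] F)).orthogonalProjectionOnto e).2
    have h2 : (ρ : ℂ) • (Φ x * star (Φ x)) (P e x) = 0 := by
      have h3 : K x (P e x) = P e x - (ρ : ℂ) • (Φ x * star (Φ x)) (P e x) := rfl
      rw [h3] at h1
      exact sub_eq_self.1 h1
    have h4 : (Φ x * star (Φ x)) (P e x) = 0 := by
      rcases smul_eq_zero.1 h2 with h | h
      · exact absurd h (by exact_mod_cast hρ0.ne')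
      · exact h
    have h5 := hin x (P e x)
    rw [h4, inner_zero_right] at h5
    have h6 : ‖star (Φ x) (P e x)‖ ^ 2 = 0 := by exact_mod_cast h5.symm
    simpa using h6
  -- a nonzero one
  set b := stdOrthonormalBasis ℂ F with hb
  obtain ⟨k, hk⟩ : ∃ k, ¬ ∀ᵐ x ∂μ, P (b k) x = 0 := by
    by_contra hcon
    push Not at hcon
    apply h0
    filter_upwards [ae_all_iff.2 hcon] with x hx
    refine unit_of_star_inj (Φ x) fun w hw => ?_
    have hw1 : w ∈ (K x).eqLocus (1 : F →L[ℂ] F) := by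
      show K x w = w
      have h3 : K x w = w - (ρ : ℂ) • (Φ x (star (Φ x) w)) := rfl
      rw [h3, hw, map_zero, smul_zero, sub_zero]
    refine InnerProductSpace.ext_inner_left_basis b.toBasis fun k => ?_
    rw [inner_zero_right, b.coe_toBasis]
    have h4 : ⟪P (b k) x, w⟫_ℂ = ⟪b k, w⟫_ℂ :=
      Submodule.inner_orthogonalProjectionOnto_eq_of_mem_right ⟨w, hw1⟩ (b k)
    rw [← h4, hx k, inner_zero_left]
  have hmem : MemLp (P (b k)) ∞ μ := memLp_top_of_bound (hPm _).aestronglyMeasurable ‖b k‖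
    (Eventually.of_forall fun x => hPn _ x)
  set w : Lp F ∞ μ := hmem.toLp _ with hw
  have hwc : (w : X → F) =ᵐ[μ] P (b k) := MemLp.coeFn_toLp hmem
  refine closure_hyp T (LinearMap.range (T : E →ₗ[ℂ] E)) ?_ (fun x => pr w (j x)) ?_ ?_
    ⟨i w, ?_⟩ ?_
  · by_contra hcon
    push Not at hcon
    apply hT0
    ext x
    exact hcon (T x) ⟨x, rfl⟩
  · exact (AddMonoidHomClass.continuous_of_bound
      (AddMonoidHom.mk' (fun x : Lp F 1 μ => pr w x) (pr_add_right w)) ‖w‖ (pr_bound w)).comp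
      j.continuous
  · rintro _ ⟨f, rfl⟩
    show pr w (j (T f)) = 0
    unfold pr
    rw [← integral_zero X ℂ (μ := μ)]
    refine integral_congr_ae ?_
    filter_upwards [hT f, hwc] with x e1 e2
    rw [e1, e2, ← ContinuousLinearMap.adjoint_inner_left, ← ContinuousLinearMap.star_eq_adjoint,
      hPk, inner_zero_left]
  · show pr w (j (i w)) ≠ 0
    intro h2
    have h3 : ∫ x, ‖(w : X → F) x‖ ^ 2 ∂μ = 0 := by
      have h4 : ((∫ x, ‖(w : X → F) x‖ ^ 2 ∂μ : ℝ) : ℂ) = 0 := by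
        rw [← integral_complex_ofReal, ← h2]
        refine integral_congr_ae ?_
        filter_upwards [hE.incl w] with x e1
        rw [e1, inner_self_eq_norm_sq_to_K]
        push_cast
        rfl
      exact_mod_cast h4
    have h5 : Integrable (fun x => ‖(w : X → F) x‖ ^ 2) μ := by
      refine (integrable_const (‖w‖ ^ 2)).mono' ((Lp.memLp w).1.norm.pow 2) ?_
      filter_upwards [norm_infty w] with x hx
      rw [Real.norm_eq_abs, abs_of_nonneg (sq_nonneg _)]
      gcongr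
    rw [integral_eq_zero_iff_of_nonneg (fun x => sq_nonneg _) h5] at h3
    apply hk
    filter_upwards [h3, hwc] with x hx e2
    have : ‖(w : X → F) x‖ ^ 2 = 0 := hx
    rw [← e2]
    simpa using this
  · rintro Q hQ _ ⟨f, rfl⟩
    exact ⟨Q f, (congrArg (fun A : E →L[ℂ] E => A f) hQ).symm⟩

/-- the general theorem -/
theorem fin_hyp (X : Type) [MeasurableSpace X] [MeasurableSpace.CountablyGenerated X]
    (μ : Measure X) [IsProbabilityMeasure μ]
    (F : Type) [NormedAddCommGroup F] [InnerProductSpace ℂ F] [FiniteDimensional ℂ F]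
    (S : X ≃ᵐ X) (hS : MeasurePreserving S μ μ)
    (hap : ∀ n : ℕ, 1 ≤ n → ∃ B : Set X, MeasurableSet B ∧ ¬ ((S^[n]) ⁻¹' B =ᵐ[μ] B))
    (Φ : X → (F →L[ℂ] F)) (R : ℝ) (hΦm : StronglyMeasurable Φ) (hΦR : ∀ x, ‖Φ x‖ ≤ R)
    (hlog : (∀ᵐ x ∂μ, IsUnit (Φ x)) →
      Integrable (fun x => Real.log ‖Ring.inverse (Φ x)‖) μ)
    (E : Type) [NormedAddCommGroup E] [NormedSpace ℂ E] [CompleteSpace E]
    (j : E →L[ℂ] Lp F 1 μ) (i : Lp F ∞ μ →L[ℂ] E) (hE : FSp j i) (T : E →L[ℂ] E)
    (hT : ∀ f : E, (j (T f) : X → F) =ᵐ[μ] fun x => Φ x ((j f : X → F) (S x)))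
    (hT0 : T ≠ 0) : HH T := by
  have : CompleteSpace F := FiniteDimensional.complete ℂ F
  by_cases hinv : ∀ᵐ x ∂μ, IsUnit (Φ x)
  swap
  · exact sing_case hE hΦm hΦR hT hinv hT0
  have hlog' := hlog hinv
  have hnt : Nontrivial F := by
    by_contra hcon
    rw [not_nontrivial_iff_subsingleton] at hcon
    apply hT0
    ext f
    refine hE.inj _ ?_ |>.trans (by simp)
    apply Lp.ext
    exact Eventually.of_forall fun x => Subsingleton.elim _ _
  -- the lower bound
  set g0 : X → ℝ := fun x => Real.exp (-Real.log ‖Ring.inverse (Φ x)‖) with hg0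
  have hg0m : AEMeasurable g0 μ := (Real.measurable_exp.comp_aemeasurable hlog'.1.aemeasurable.neg)
  have hgood : ∀ᵐ x ∂μ, IsUnit (Φ x) ∧ g0 x = hg0m.mk g0 x := by
    filter_upwards [hinv, hg0m.ae_eq_mk] with x h1 h2
    exact ⟨h1, h2⟩
  obtain ⟨A, hAsub, hAm, hA0⟩ : ∃ A : Set X, (∀ x ∈ A, IsUnit (Φ x) ∧ g0 x = hg0m.mk g0 x) ∧
      MeasurableSet A ∧ ∀ᵐ x ∂μ, x ∈ A := by
    obtain ⟨N, hN1, hN2, hN3⟩ := exists_measurable_superset_of_null (ae_iff.1 hgood)
    refine ⟨Nᶜ, fun x hx => ?_, hN2.compl, ?_⟩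
    · by_contra hcon
      exact hx (hN1 hcon)
    · rw [ae_iff]
      simpa using hN3
  classical
  set Φ' : X → F →L[ℂ] F := fun x => if x ∈ A then Φ x else 1 with hΦ'
  set g : X → ℝ := fun x => if x ∈ A then hg0m.mk g0 x else 1 with hg
  have hΦ'm : StronglyMeasurable Φ' := StronglyMeasurable.ite hAm hΦm stronglyMeasurable_const
  have hgm : Measurable g := Measurable.ite hAm hg0m.measurable_mk measurable_const
  have hΦ'R : ∀ x, ‖Φ' x‖ ≤ max R 1 := by
    intro x
    by_cases hx : x ∈ A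
    · simp only [hΦ', hx, if_true]
      exact (hΦR x).trans (le_max_left _ _)
    · simp only [hΦ', hx, if_false]
      exact ContinuousLinearMap.norm_id_le.trans (le_max_right _ _)
  have hgpos : ∀ x, 0 < g x := by
    intro x
    by_cases hx : x ∈ A
    · simp only [hg, hx, if_true]
      rw [← (hAsub x hx).2]
      exact Real.exp_pos _
    · simp only [hg, hx, if_false]
      exact one_pos
  have hgΦ : ∀ x w, g x * ‖w‖ ≤ ‖Φ' x w‖ := by
    intro x w
    by_cases hx : x ∈ A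
    · simp only [hg, hΦ', hx, if_true]
      obtain ⟨hu, he⟩ := hAsub x hx
      rw [← he, hg0]
      simp only
      set B := Ring.inverse (Φ x) with hB
      have h1 : B * Φ x = 1 := Ring.inverse_mul_cancel _ hu
      have hB0 : 0 < ‖B‖ := by
        rw [norm_pos_iff]
        intro h0
        rw [h0, zero_mul] at h1
        exact zero_ne_one h1
      rw [Real.exp_neg, Real.exp_log hB0, inv_mul_le_iff₀ hB0]
      calc ‖w‖ = ‖B (Φ x w)‖ := by
            have h2 : B (Φ x w) = (B * Φ x) w := rfl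
            rw [h2, h1]
            rfl
        _ ≤ ‖B‖ * ‖Φ x w‖ := B.le_opNorm _
    · simp only [hg, hΦ', hx, if_false]
      rw [one_mul]
      exact le_rfl
  have hgi : Integrable (fun x => Real.log (g x)) μ := by
    refine hlog'.neg.congr ?_
    filter_upwards [hA0] with x hx
    simp only [hg, hx, if_true, Pi.neg_apply]
    rw [← (hAsub x hx).2, hg0]
    simp only
    rw [Real.log_exp]
  have hR0 : (0:ℝ) ≤ max R 1 := zero_le_one.trans (le_max_right _ _)
  obtain ⟨T2, hT2, -⟩ := exists_act (μ := μ) 2 hΦ'm hR0 hΦ'R hS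
  obtain ⟨z, hz⟩ := fin_gdata X μ F S hS hap Φ' (max R 1) hΦ'm hΦ'R g hgm hgpos hgΦ hgi T2 hT2
  refine hyp_of_gdata hS hΦ'm hΦ'R hT2 z hz hE (fun f => ?_)
  filter_upwards [hT f, hA0] with x e1 hx
  rw [e1]
  simp only [hΦ', hx, if_true]

end

end Pool.Agent.TH550.LV
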