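import Pool.Agent.TH550.LV.Dat
import Pool.Agent.H181R5.RW.R8

/-!
Weighted translations on Banach function spaces: the periodic case and weights with zeros (helper550).
-/

set_option autoImplicit false
set_option linter.unusedSectionVars false
open scoped ComplexConjugate InnerProductSpace Topology ENNReal
open Filter MeasureTheory NormedSpace

namespace Pool.Agent.TH550.LV

section
variable {E : Type} [NormedAddCommGroup E] [NormedSpace ℂ E]

/-- an algebraic operator has an eigenvalue -/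
theorem inj_prod (T : E →L[ℂ] E) (hT : ∀ c : ℂ, Function.Injective (T - c • (1 : E →L[ℂ] E)))
    (s : Multiset ℂ) :
    Function.Injective (Polynomial.aeval T
      ((s.map fun c => (Polynomial.X - Polynomial.C c : Polynomial ℂ)).prod) : E →L[ℂ] E) := by
  induction s using Multiset.induction with
  | empty =>
    rw [Multiset.map_zero, Multiset.prod_zero, map_one]
    exact fun x y h => h
  | cons c s ih =>
    rw [Multiset.map_cons, Multiset.prod_cons, map_mul]
    intro x y h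
    apply ih
    apply hT c
    have e : (Polynomial.aeval T (Polynomial.X - Polynomial.C c : Polynomial ℂ) : E →L[ℂ] E)
        = T - c • 1 := by
      rw [map_sub, Polynomial.aeval_X, Polynomial.aeval_C, Algebra.algebraMap_eq_smul_one]
    rw [e] at h
    exact h

theorem alg_case (T : E →L[ℂ] E) (n : ℕ) (hn : 1 ≤ n) (a : ℂ) (h : T ^ n = a • (1 : E →L[ℂ] E))
    (hns : ¬ ∃ c : ℂ, T = c • 1) : HH T := by
  by_cases hinj : ∀ c : ℂ, Function.Injective (T - c • (1 : E →L[ℂ] E))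
  · exfalso
    set p : Polynomial ℂ := Polynomial.X ^ n - Polynomial.C a with hp
    have hm : p.Monic := Polynomial.monic_X_pow_sub_C a (by omega)
    have h1 : p = (p.roots.map fun c => (Polynomial.X - Polynomial.C c : Polynomial ℂ)).prod :=
      (IsAlgClosed.splits p).eq_prod_roots_of_monic hm
    have h2 := inj_prod T hinj p.roots
    rw [← h1] at h2
    have h3 : (Polynomial.aeval T p : E →L[ℂ] E) = 0 := by
      rw [hp, map_sub, map_pow, Polynomial.aeval_X, Polynomial.aeval_C,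
        Algebra.algebraMap_eq_smul_one, h, sub_self]
    rw [h3] at h2
    apply hns
    refine ⟨0, ?_⟩
    ext x
    have h4 : x = 0 := h2 (by simp)
    rw [h4, map_zero, map_zero]
  · push Not at hinj
    obtain ⟨c, hc⟩ := hinj
    refine ⟨LinearMap.ker (T - c • (1 : E →L[ℂ] E) : E →L[ℂ] E).toLinearMap, ?_, ?_, ?_, ?_⟩
    · exact (T - c • (1 : E →L[ℂ] E)).isClosed_ker
    · intro h0
      exact hc (LinearMap.ker_eq_bot.1 h0)
    · intro h0
      apply hns
      refine ⟨c, ?_⟩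
      rw [LinearMap.ker_eq_top] at h0
      ext x
      have h1 := congrArg (fun A : E →ₗ[ℂ] E => A x) h0
      have h2 : T x - c • x = 0 := h1
      exact sub_eq_zero.1 h2
    · intro Q hQ x hx
      have h1 : T x - c • x = 0 := hx
      show T (Q x) - c • (Q x) = 0
      have h2 : Q (T x) = T (Q x) := congrArg (fun A : E →L[ℂ] E => A x) hQ
      rw [← h2, ← map_smul, ← map_sub, h1, map_zero]

/-- closure of a hyperinvariant linear manifold -/
theorem closure_hyp (T : E →L[ℂ] E) (W : Submodule ℂ E) (h0 : ∃ x ∈ W, x ≠ 0)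
    (ℓ : E → ℂ) (hℓ : Continuous ℓ) (hW : ∀ x ∈ W, ℓ x = 0) (h1 : ∃ x, ℓ x ≠ 0)
    (hQ : ∀ Q : E →L[ℂ] E, Q * T = T * Q → ∀ x ∈ W, Q x ∈ W) : HH T := by
  refine ⟨W.topologicalClosure, W.isClosed_topologicalClosure, ?_, ?_, ?_⟩
  · intro hb
    obtain ⟨x, hx, hx0⟩ := h0
    have := W.le_topologicalClosure hx
    rw [hb, Submodule.mem_bot] at this
    exact hx0 this
  · intro ht
    obtain ⟨x, hx⟩ := h1
    apply hx
    have h2 : x ∈ W.topologicalClosure := by rw [ht]; trivial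
    have h3 : (W.topologicalClosure : Set E) ⊆ {x | ℓ x = 0} := by
      rw [Submodule.topologicalClosure_coe]
      exact closure_minimal hW (isClosed_eq hℓ continuous_const)
    exact h3 h2
  · intro Q hQT x hx
    have h2 : x ∈ closure (W : Set E) := hx
    exact map_mem_closure Q.continuous h2 (fun y hy => hQ Q hQT y hy)

end

variable {X : Type} [MeasurableSpace X] {μ : Measure X} [IsProbabilityMeasure μ]
  {E : Type} [NormedAddCommGroup E] [NormedSpace ℂ E] [CompleteSpace E]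

/-- the indicator function of a set in `L^∞` -/
noncomputable def ind (μ : Measure X) [IsProbabilityMeasure μ] {A : Set X} (hA : MeasurableSet A) :
    Lp ℂ ∞ μ := indicatorConstLp ∞ hA (measure_ne_top μ A) (1:ℂ)

theorem ind_coe {A : Set X} (hA : MeasurableSet A) :
    (ind μ hA : X → ℂ) =ᵐ[μ] A.indicator fun _ => (1:ℂ) := indicatorConstLp_coeFn

theorem pr_ind {A : Set X} (hA : MeasurableSet A) (y : Lp ℂ 1 μ) :
    pr (ind μ hA) y = ∫ x in A, (y : X → ℂ) x ∂μ := by
  unfold pr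
  rw [← integral_indicator hA]
  refine integral_congr_ae ?_
  filter_upwards [ind_coe (μ := μ) hA] with x e
  rw [e]
  by_cases hx : x ∈ A
  · rw [Set.indicator_of_mem hx, Set.indicator_of_mem hx, RCLike.inner_apply, map_one, mul_one]
  · rw [Set.indicator_of_notMem hx, Set.indicator_of_notMem hx, inner_zero_left]

theorem pr_ind_ind {j : E →L[ℂ] Lp ℂ 1 μ} {i : Lp ℂ ∞ μ →L[ℂ] E} (hE : FSp j i) {A : Set X}
    (hA : MeasurableSet A) : pr (ind μ hA) (j (i (ind μ hA))) = (μ.real A : ℂ) := by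
  rw [pr_ind]
  have h1 : ∫ x in A, (j (i (ind μ hA)) : X → ℂ) x ∂μ = ∫ x in A, (1:ℂ) ∂μ := by
    refine setIntegral_congr_ae hA ?_
    filter_upwards [hE.incl (ind μ hA), ind_coe (μ := μ) hA] with x e1 e2 hx
    rw [e1, e2, Set.indicator_of_mem hx]
  rw [h1, integral_const]
  simp

theorem cont_pr (h : Lp ℂ ∞ μ) (j : E →L[ℂ] Lp ℂ 1 μ) : Continuous fun x : E => pr h (j x) :=
  (AddMonoidHomClass.continuous_of_bound
    (AddMonoidHom.mk' (fun x : Lp ℂ 1 μ => pr h x) (pr_add_right h)) ‖h‖ (pr_bound h)).comp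
    j.continuous

theorem zero_case {j : E →L[ℂ] Lp ℂ 1 μ} {i : Lp ℂ ∞ μ →L[ℂ] E} (hE : FSp j i)
    {S : X → X} {φ : X → ℂ} (hφ : Measurable φ) {T : E →L[ℂ] E}
    (hT : ∀ f : E, (j (T f) : X → ℂ) =ᵐ[μ] fun x => φ x * (j f : X → ℂ) (S x))
    (h0 : ¬ ∀ᵐ x ∂μ, φ x ≠ 0) (hT0 : T ≠ 0) : HH T := by
  set A : Set X := {x | φ x = 0} with hAdef
  have hA : MeasurableSet A := hφ (measurableSet_singleton 0)
  have hAμ : μ.real A ≠ 0 := by
    intro hz
    apply h0
    have hz' : μ A = 0 := by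
      rcases (ENNReal.toReal_eq_zero_iff _).1 hz with h | h
      · exact h
      · exact absurd h (measure_ne_top _ _)
    rw [ae_iff]
    simpa [hAdef] using hz'
  refine closure_hyp T (LinearMap.range (T : E →ₗ[ℂ] E)) ?_ (fun x => pr (ind μ hA) (j x))
    (cont_pr _ j) ?_ ⟨i (ind μ hA), ?_⟩ ?_
  · by_contra hcon
    push Not at hcon
    apply hT0
    ext x
    exact hcon (T x) ⟨x, rfl⟩
  · rintro _ ⟨f, rfl⟩
    show pr (ind μ hA) (j (T f)) = 0
    rw [pr_ind]
    rw [← integral_zero X ℂ (μ := μ.restrict A)]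
    refine setIntegral_congr_ae hA ?_
    filter_upwards [hT f] with x e hx
    have : φ x = 0 := hx
    rw [e, this, zero_mul]
  · show pr (ind μ hA) (j (i (ind μ hA))) ≠ 0
    rw [pr_ind_ind hE]
    exact_mod_cast hAμ
  · rintro Q hQ _ ⟨f, rfl⟩
    exact ⟨Q f, (congrArg (fun A : E →L[ℂ] E => A f) hQ).symm⟩

/-- powers of a weighted translation -/
theorem pow_act {j : E →L[ℂ] Lp ℂ 1 μ} {S : X → X} (hS : MeasurePreserving S μ μ) {φ : X → ℂ}
    {T : E →L[ℂ] E}
    (hT : ∀ f : E, (j (T f) : X → ℂ) =ᵐ[μ] fun x => φ x * (j f : X → ℂ) (S x)) (n : ℕ) (f : E) :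
    (j ((T ^ n) f) : X → ℂ) =ᵐ[μ] fun x => (∏ k ∈ Finset.range n, φ (S^[k] x)) *
      (j f : X → ℂ) (S^[n] x) := by
  induction n with
  | zero =>
    refine Eventually.of_forall fun x => ?_
    simp
  | succ n ih =>
    have e0 : (T ^ (n + 1)) f = T ((T ^ n) f) := by
      rw [pow_succ', mul_apply_eq_comp]
    have h1 := hS.quasiMeasurePreserving.ae_eq_comp ih
    rw [e0]
    filter_upwards [hT ((T ^ n) f), h1] with x e1 e2
    simp only [Function.comp_apply] at e2
    rw [e1, e2, Finset.prod_range_succ', Function.iterate_zero, id_eq, ← mul_assoc]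
    congr 1
    · rw [mul_comm]
      congr 1

theorem real_ae {F : X → X} (hF : Measurable F)
    (hB : ∀ B : Set X, MeasurableSet B → F ⁻¹' B =ᵐ[μ] B) (g : Lp ℂ 1 μ) :
    (fun x => (g : X → ℂ) (F x)) =ᵐ[μ] (g : X → ℂ) := by
  have hm : Measurable (g : X → ℂ) := (Lp.stronglyMeasurable g).measurable
  have h1 := Pool.Agent.H181R5.RW.t_R8 X μ F hF hB (fun x => ((g : X → ℂ) x).re)
    (Complex.measurable_re.comp hm)
  have h2 := Pool.Agent.H181R5.RW.t_R8 X μ F hF hB (fun x => ((g : X → ℂ) x).im)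
    (Complex.measurable_im.comp hm)
  filter_upwards [h1, h2] with x e1 e2
  exact Complex.ext e1 e2

/-- closed balls separate the points of the plane -/
theorem sep_balls (u : X → ℂ) (h : ∀ (c : ℂ) (r : ℝ), (∀ᵐ x ∂μ, ‖u x - c‖ ≤ r) ∨
    (∀ᵐ x ∂μ, ¬ ‖u x - c‖ ≤ r)) : ∃ a : ℂ, ∀ᵐ x ∂μ, u x = a := by
  have hne := (ae_neBot (μ := μ)).2 (IsProbabilityMeasure.ne_zero μ)
  have h1 : ∀ (c : ℂ), ∃ ρ : ℝ, ∀ᵐ x ∂μ, ‖u x - c‖ = ρ := by
    intro c
    have hsep : HasCountableSeparatingOn ℝ (· ∈ Set.range Set.Iic) Set.univ :=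
      HasCountableSeparatingOn.range_Iic
    have h2 : ∃ ρ : ℝ, (fun x => ‖u x - c‖) =ᶠ[ae μ] Function.const X ρ := by
      refine Filter.exists_eventuallyEq_const_of_forall_separating
        (p := (· ∈ Set.range Set.Iic)) (l := ae μ) ?_
      rintro U ⟨r, rfl⟩
      exact h c r
    exact h2
  choose ρ hρ using h1
  obtain ⟨D, hDc, hDd⟩ := TopologicalSpace.exists_countable_dense ℂ
  have h3 : ∀ᵐ x ∂μ, ∀ c ∈ D, ‖u x - c‖ = ρ c := (ae_ball_iff hDc).2 fun c _ => hρ c
  obtain ⟨x0, hx0⟩ := h3.exists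
  refine ⟨u x0, ?_⟩
  filter_upwards [h3] with x hx
  have h4 : ∀ c : ℂ, ‖u x - c‖ = ‖u x0 - c‖ := by
    intro c
    have hcl : IsClosed {c : ℂ | ‖u x - c‖ = ‖u x0 - c‖} :=
      isClosed_eq (by fun_prop) (by fun_prop)
    have := hcl.closure_subset_iff.2 (fun c (hc : c ∈ D) => (hx c hc).trans (hx0 c hc).symm)
    exact this (hDd c)
  have h5 := h4 (u x0)
  rw [sub_self, norm_zero, norm_eq_zero] at h5
  exact sub_eq_zero.1 h5

/-- the non-constant case -/
theorem ball_case {j : E →L[ℂ] Lp ℂ 1 μ} {i : Lp ℂ ∞ μ →L[ℂ] E} (hE : FSp j i) {u : X → ℂ}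
    (hu : Measurable u) {T M : E →L[ℂ] E} (hM : ∀ Q : E →L[ℂ] E, Q * T = T * Q → Q * M = M * Q)
    (hMu : ∀ f : E, (j (M f) : X → ℂ) =ᵐ[μ] fun x => u x * (j f : X → ℂ) x)
    (c : ℂ) (r : ℝ) (h1 : ¬ ∀ᵐ x ∂μ, ‖u x - c‖ ≤ r) (h2 : ¬ ∀ᵐ x ∂μ, ¬ ‖u x - c‖ ≤ r) : HH T := by
  have hr0 : 0 ≤ r := by
    by_contra hneg
    exact h2 (Eventually.of_forall fun x hx => hneg ((norm_nonneg _).trans hx))
  set D : E →L[ℂ] E := M - c • 1 with hD
  have hDj : ∀ (m : ℕ) (f : E), (j ((D ^ m) f) : X → ℂ) =ᵐ[μ]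
      fun x => (u x - c) ^ m * (j f : X → ℂ) x := by
    intro m
    induction m with
    | zero => intro f; exact Eventually.of_forall fun x => by simp
    | succ m ih =>
      intro f
      have e0 : (D ^ (m + 1)) f = D ((D ^ m) f) := by
        rw [pow_succ', mul_apply_eq_comp]
      have e1 : D ((D ^ m) f) = M ((D ^ m) f) - c • (D ^ m) f := rfl
      rw [e0, e1, map_sub, map_smul]
      filter_upwards [Lp.coeFn_sub (j (M ((D ^ m) f))) (c • j ((D ^ m) f)),
        Lp.coeFn_smul c (j ((D ^ m) f)), hMu ((D ^ m) f), ih f] with x e2 e3 e4 e5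
      rw [e2, Pi.sub_apply, e3, Pi.smul_apply, e4, e5, pow_succ, smul_eq_mul]
      ring
  -- the sets
  set A : Set X := {x | ‖u x - c‖ ≤ r} with hAdef
  have hw : Measurable fun x => ‖u x - c‖ := (hu.sub_const c).norm
  have hA : MeasurableSet A := measurableSet_le hw measurable_const
  have hAμ : μ A ≠ 0 := by
    intro h0
    apply h2
    rw [ae_iff]
    simpa [hAdef] using h0
  obtain ⟨δ, hδ, hB0⟩ : ∃ δ : ℝ, 0 < δ ∧ μ {x | r + δ ≤ ‖u x - c‖} ≠ 0 := by
    by_contra hcon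
    push Not at hcon
    apply h1
    have h3 : ∀ n : ℕ, ∀ᵐ x ∂μ, ¬ (r + 1 / ((n : ℝ) + 1) ≤ ‖u x - c‖) := fun n => by
      rw [ae_iff]
      simpa using hcon (1 / ((n : ℝ) + 1)) (by positivity)
    filter_upwards [ae_all_iff.2 h3] with x hx
    refine le_of_forall_pos_lt_add fun ε hε => ?_
    obtain ⟨n, hn⟩ := exists_nat_one_div_lt hε
    have := hx n
    push Not at this
    linarith
  set B : Set X := {x | r + δ ≤ ‖u x - c‖} with hBdef
  have hB : MeasurableSet B := measurableSet_le measurable_const hw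
  -- the manifold
  let W : Submodule ℂ E :=
    { carrier := {f | ∃ C : ℝ, ∀ m : ℕ, ‖(D ^ m) f‖ ≤ C * r ^ m}
      add_mem' := by
        rintro f g ⟨C, hC⟩ ⟨C', hC'⟩
        refine ⟨C + C', fun m => ?_⟩
        rw [map_add, add_mul]
        exact (norm_add_le _ _).trans (add_le_add (hC m) (hC' m))
      zero_mem' := ⟨0, fun m => by rw [map_zero, norm_zero, zero_mul]⟩
      smul_mem' := by
        rintro z f ⟨C, hC⟩
        refine ⟨‖z‖ * C, fun m => ?_⟩
        rw [map_smul, norm_smul, mul_assoc]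
        exact mul_le_mul_of_nonneg_left (hC m) (norm_nonneg _) }
  refine closure_hyp T W ⟨i (ind μ hA), ?_, ?_⟩ (fun x => pr (ind μ hB) (j x))
    (cont_pr _ j) ?_ ⟨i (ind μ hB), ?_⟩ ?_
  · refine ⟨‖i‖, fun m => ?_⟩
    -- `D^m (i 1_A) = i ((u - c)^m 1_A)`
    have hmem : MemLp (fun x => A.indicator (fun x => (u x - c) ^ m) x) ∞ μ := by
      refine memLp_top_of_bound (((hu.sub_const c).pow_const m).indicator hA).aestronglyMeasurable
        (r ^ m) (Eventually.of_forall fun x => ?_)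
      by_cases hx : x ∈ A
      · rw [Set.indicator_of_mem hx, norm_pow]
        exact pow_le_pow_left₀ (norm_nonneg _) hx m
      · rw [Set.indicator_of_notMem hx, norm_zero]
        positivity
    have h3 : (D ^ m) (i (ind μ hA)) = i (hmem.toLp _) := by
      rw [← sub_eq_zero]
      refine hE.inj _ ?_
      rw [map_sub, sub_eq_zero]
      apply Lp.ext
      filter_upwards [hDj m (i (ind μ hA)), hE.incl (ind μ hA), ind_coe (μ := μ) hA,
        hE.incl (hmem.toLp _), MemLp.coeFn_toLp hmem] with x e1 e2 e3 e4 e5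
      rw [e1, e2, e3, e4, e5]
      by_cases hx : x ∈ A
      · rw [Set.indicator_of_mem hx, Set.indicator_of_mem hx, mul_one]
      · rw [Set.indicator_of_notMem hx, Set.indicator_of_notMem hx, mul_zero]
    rw [h3]
    refine (i.le_opNorm _).trans (mul_le_mul_of_nonneg_left (norm_le_of_bd (by positivity) ?_)
      (norm_nonneg _))
    filter_upwards [MemLp.coeFn_toLp hmem] with x e5
    rw [e5]
    by_cases hx : x ∈ A
    · rw [Set.indicator_of_mem hx, norm_pow]
      exact pow_le_pow_left₀ (norm_nonneg _) hx m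
    · rw [Set.indicator_of_notMem hx, norm_zero]
      positivity
  · intro h0
    have h3 := pr_ind_ind hE hA
    rw [h0, map_zero] at h3
    have h4 : pr (ind μ hA) (0 : Lp ℂ 1 μ) = 0 := by
      have := pr_smul_right (ind μ hA) 0 (0 : Lp ℂ 1 μ)
      rwa [zero_smul, zero_mul] at this
    rw [h4] at h3
    have h5 : μ.real A = 0 := by exact_mod_cast h3.symm
    rcases (ENNReal.toReal_eq_zero_iff _).1 h5 with h | h
    · exact hAμ h
    · exact absurd h (measure_ne_top _ _)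
  · rintro f ⟨C, hC⟩
    show pr (ind μ hB) (j f) = 0
    rw [pr_ind]
    have hint : Integrable (fun x => ‖(j f : X → ℂ) x‖) μ := (int_y (j f)).norm
    have key : ∀ m : ℕ, (r + δ) ^ m * ∫ x in B, ‖(j f : X → ℂ) x‖ ∂μ ≤ ‖j‖ * C * r ^ m := by
      intro m
      have e1 : ∫ x, ‖(j ((D ^ m) f) : X → ℂ) x‖ ∂μ = ‖j ((D ^ m) f)‖ := by
        rw [Lp.norm_def, eLpNorm_one_eq_lintegral_enorm,
          integral_norm_eq_lintegral_enorm (Lp.memLp _).1]
      have e2 : (r + δ) ^ m * ∫ x in B, ‖(j f : X → ℂ) x‖ ∂μ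
          ≤ ∫ x in B, ‖(j ((D ^ m) f) : X → ℂ) x‖ ∂μ := by
        rw [← integral_const_mul]
        refine setIntegral_mono_on_ae (hint.const_mul _).integrableOn
          (int_y (j ((D ^ m) f))).norm.integrableOn hB ?_
        filter_upwards [hDj m f] with x e3 hx
        rw [e3, norm_mul, norm_pow]
        exact mul_le_mul_of_nonneg_right (pow_le_pow_left₀ (by positivity) hx m) (norm_nonneg _)
      calc _ ≤ ∫ x in B, ‖(j ((D ^ m) f) : X → ℂ) x‖ ∂μ := e2
        _ ≤ ∫ x, ‖(j ((D ^ m) f) : X → ℂ) x‖ ∂μ :=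
            setIntegral_le_integral (int_y _).norm (Eventually.of_forall fun x => norm_nonneg _)
        _ = ‖j ((D ^ m) f)‖ := e1
        _ ≤ ‖j‖ * (C * r ^ m) := (j.le_opNorm _).trans
            (mul_le_mul_of_nonneg_left (hC m) (norm_nonneg _))
        _ = _ := by ring
    have hlim : Tendsto (fun m : ℕ => ‖j‖ * C * (r / (r + δ)) ^ m) atTop (𝓝 0) := by
      have := (tendsto_pow_atTop_nhds_zero_of_lt_one (r := r / (r + δ)) (by positivity)
        ((div_lt_one (by positivity)).2 (by linarith))).const_mul (‖j‖ * C)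
      rwa [mul_zero] at this
    have h0 : ∫ x in B, ‖(j f : X → ℂ) x‖ ∂μ ≤ 0 := by
      refine ge_of_tendsto hlim (Eventually.of_forall fun m => ?_)
      have h3 : 0 < (r + δ) ^ m := by positivity
      rw [div_pow, ← mul_div_assoc, le_div_iff₀ h3]
      calc _ = (r + δ) ^ m * ∫ x in B, ‖(j f : X → ℂ) x‖ ∂μ := by ring
        _ ≤ _ := key m
    have h4 : ‖∫ x in B, (j f : X → ℂ) x ∂μ‖ ≤ 0 := (norm_integral_le_integral_norm _).trans h0
    exact norm_le_zero_iff.1 h4
  · show pr (ind μ hB) (j (i (ind μ hB))) ≠ 0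
    rw [pr_ind_ind hE]
    intro h0
    have h5 : μ.real B = 0 := by exact_mod_cast h0
    rcases (ENNReal.toReal_eq_zero_iff _).1 h5 with h | h
    · exact hB0 h
    · exact absurd h (measure_ne_top _ _)
  · rintro Q hQ f ⟨C, hC⟩
    have hQM := hM Q hQ
    have hQD : Commute Q D := by
      have h3 : Commute Q M := hQM
      exact h3.sub_right ((Commute.one_right Q).smul_right c)
    refine ⟨‖Q‖ * C, fun m => ?_⟩
    have h4 : (D ^ m) (Q f) = Q ((D ^ m) f) := by
      have := (hQD.pow_right m).eq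
      exact (congrArg (fun A : E →L[ℂ] E => A f) this).symm
    rw [h4, mul_assoc]
    exact (Q.le_opNorm _).trans (mul_le_mul_of_nonneg_left (hC m) (norm_nonneg _))

/-- every non-scalar weighted translation with log-integrable weight, or with a weight vanishing on a set
of positive measure -/
theorem gen_hyp (X : Type) [MeasurableSpace X] [MeasurableSpace.CountablyGenerated X]
    (μ : Measure X) [IsProbabilityMeasure μ] (S : X ≃ᵐ X) (hS : MeasurePreserving S μ μ)
    (φ : X → ℂ) (R : ℝ) (hφ : Measurable φ) (hφR : ∀ x, ‖φ x‖ ≤ R)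
    (hlog : (∀ᵐ x ∂μ, φ x ≠ 0) → Integrable (fun x => Real.log ‖φ x‖) μ)
    (E : Type) [NormedAddCommGroup E] [NormedSpace ℂ E] [CompleteSpace E]
    (j : E →L[ℂ] Lp ℂ 1 μ) (i : Lp ℂ ∞ μ →L[ℂ] E) (hE : FSp j i) (T : E →L[ℂ] E)
    (hT : ∀ f : E, (j (T f) : X → ℂ) =ᵐ[μ] fun x => φ x * (j f : X → ℂ) (S x))
    (hns : ¬ ∃ c : ℂ, T = c • 1) : HH T := by
  by_cases h0 : ∀ᵐ x ∂μ, φ x ≠ 0
  swap
  · exact zero_case hE hφ hT h0 (fun h => hns ⟨0, by rw [h, zero_smul]⟩)
  by_cases hap : ∀ n : ℕ, 1 ≤ n → ∃ B : Set X, MeasurableSet B ∧ ¬ ((S^[n]) ⁻¹' B =ᵐ[μ] B)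
  · exact wt_hyp X μ S hS hap φ R hφ hφR h0 (hlog h0) E j i hE T hT
  push Not at hap
  obtain ⟨n, hn, hB⟩ := hap
  set u : X → ℂ := fun x => ∏ k ∈ Finset.range n, φ (S^[k] x) with hu
  have hum : Measurable u := by
    rw [hu]
    exact Finset.measurable_prod _ fun k _ => hφ.comp (S.measurable.iterate k)
  have hM : ∀ f : E, (j ((T ^ n) f) : X → ℂ) =ᵐ[μ] fun x => u x * (j f : X → ℂ) x := by
    intro f
    filter_upwards [pow_act hS hT n f, real_ae (S.measurable.iterate n) hB (j f)] with x e1 e2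
    rw [e1, e2]
  by_cases hc : ∃ a : ℂ, ∀ᵐ x ∂μ, u x = a
  · obtain ⟨a, ha⟩ := hc
    refine alg_case T n hn a ?_ hns
    ext f
    rw [← sub_eq_zero]
    refine hE.inj _ ?_
    rw [map_sub, sub_eq_zero]
    apply Lp.ext
    have h1 : (a • (1 : E →L[ℂ] E)) f = a • f := rfl
    rw [h1, map_smul]
    filter_upwards [hM f, ha, Lp.coeFn_smul a (j f)] with x e1 e2 e3
    rw [e1, e2, e3]
    rfl
  · have h1 : ¬ ∀ (c : ℂ) (r : ℝ), (∀ᵐ x ∂μ, ‖u x - c‖ ≤ r) ∨ (∀ᵐ x ∂μ, ¬ ‖u x - c‖ ≤ r) :=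
      fun h => hc (sep_balls u h)
    by_contra hcon
    refine h1 fun c r => ?_
    by_contra h2
    rw [not_or] at h2
    exact hcon (ball_case hE hum (T := T) (M := T ^ n)
      (fun Q hQ => (Commute.pow_right (show Commute Q T from hQ) n).eq) hM c r h2.1 h2.2)

end Pool.Agent.TH550.LV
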