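import Pool.Agent.TH550.LV.Wop
import Pool.Agent.TH550.LP.Prod

/-!
Regularisation of vectors with prescribed growth by slow multipliers (helper550).
-/

set_option autoImplicit false
open scoped ComplexConjugate Topology ENNReal
open Filter MeasureTheory NormedSpace

namespace Pool.Agent.TH550.LV
open Pool.Agent.TH550.LP

variable {X : Type} [MeasurableSpace X] {μ : Measure X}
  {F : Type} [NormedAddCommGroup F] [InnerProductSpace ℂ F] [CompleteSpace F]

theorem lintegral_sq (w : Lp F 2 μ) : ∫⁻ x, ‖(w : X → F) x‖ₑ ^ 2 ∂μ = ENNReal.ofReal (‖w‖ ^ 2) := by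
  have h1 := eLpNorm_nnreal_pow_eq_lintegral (f := (w : X → F)) (μ := μ) (p := 2) (by norm_num)
  have h2 : (((2 : NNReal) : ℝ)) = ((2 : ℕ) : ℝ) := by norm_num
  rw [h2] at h1
  simp only [ENNReal.rpow_natCast] at h1
  rw [← h1, Lp.norm_def, ENNReal.ofReal_pow ENNReal.toReal_nonneg, ENNReal.ofReal_toReal]
  · norm_cast
  · exact (Lp.memLp w).2.ne

/-- a common majorant -/
theorem majorant {ι : Type} [Countable ι] (w : ι → Lp F 2 μ)
    (hw : Summable fun j => ‖w j‖ ^ 2) :
    ∃ G : X → ℝ, Measurable G ∧ (∀ x, 0 ≤ G x) ∧ Integrable (fun x => G x ^ 2) μ ∧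
      ∀ j, ∀ᵐ x ∂μ, ‖(w j : X → F) x‖ ≤ G x := by
  set g : X → ℝ≥0∞ := fun x => ∑' j, ‖(w j : X → F) x‖ₑ ^ 2 with hg
  have hwm : ∀ j, Measurable fun x => ‖(w j : X → F) x‖ₑ ^ 2 := fun j =>
    ((Lp.stronglyMeasurable (w j)).enorm).pow_const 2
  have hgm : Measurable g := Measurable.tsum hwm
  have hgi : ∫⁻ x, g x ∂μ ≠ ∞ := by
    rw [hg, lintegral_tsum fun j => (hwm j).aemeasurable]
    simp_rw [lintegral_sq]
    rw [← ENNReal.ofReal_tsum_of_nonneg (fun j => by positivity) hw]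
    exact ENNReal.ofReal_ne_top
  have hgf : ∀ᵐ x ∂μ, g x < ∞ := ae_lt_top hgm hgi
  refine ⟨fun x => Real.sqrt (g x).toReal, (hgm.ennreal_toReal).sqrt, fun x => Real.sqrt_nonneg _,
    ?_, fun j => ?_⟩
  · have : (fun x => Real.sqrt (g x).toReal ^ 2) = fun x => (g x).toReal := by
      funext x
      exact Real.sq_sqrt ENNReal.toReal_nonneg
    rw [this]
    exact integrable_toReal_of_lintegral_ne_top hgm.aemeasurable hgi
  · filter_upwards [hgf] with x hx
    refine Real.le_sqrt_of_sq_le ?_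
    have h1 : ‖(w j : X → F) x‖ₑ ^ 2 ≤ g x := ENNReal.le_tsum j
    have h2 := ENNReal.toReal_mono hx.ne h1
    rw [ENNReal.toReal_pow, toReal_enorm] at h2
    exact h2

theorem integrable_sq_add [IsFiniteMeasure μ] {G1 G2 : X → ℝ} (h1 : Measurable G1) (h2 : Measurable G2)
    (i1 : Integrable (fun x => G1 x ^ 2) μ) (i2 : Integrable (fun x => G2 x ^ 2) μ) :
    Integrable (fun x => (G1 x + G2 x) ^ 2) μ := by
  refine ((i1.const_mul 2).add (i2.const_mul 2)).mono' ((h1.add h2).pow_const 2).aestronglyMeasurable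
    (Eventually.of_forall fun x => ?_)
  rw [Real.norm_eq_abs, abs_of_nonneg (sq_nonneg _)]
  simp only [Pi.add_apply]
  nlinarith [sq_nonneg (G1 x - G2 x)]

/-- regularisation -/
theorem reg [IsProbabilityMeasure μ] (S : X ≃ᵐ X) (hS : MeasurePreserving S μ μ) {Φ : X → F →L[ℂ] F}
    {W : Lp F 2 μ →L[ℂ] Lp F 2 μ} (hW : Act 2 Φ S W) (k : ℕ → ℕ) (hk : StrictMono k)
    (v : ℕ → Lp F 2 μ) (f : Lp F 2 μ) (hf : f ≠ 0) (hv : Tendsto v atTop (𝓝 f)) (c C : ℝ)
    (hest : ∀ i, ‖exp ((k i : ℂ) • W) (v i)‖ ≤ C * Real.exp (c * k i)) (η : ℝ) (hη : 0 < η) :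
    ∃ (σ : ℕ → ℕ) (ψ : X → ℝ) (K : ℝ), StrictMono σ ∧ Measurable ψ ∧ (∀ x, 0 ≤ ψ x ∧ ψ x ≤ 1) ∧
      0 ≤ K ∧ (¬ ∀ᵐ x ∂μ, (ψ x : ℂ) • (f : X → F) x = 0) ∧
      (∀ᵐ x ∂μ, Tendsto (fun i => (v (σ i) : X → F) x) atTop (𝓝 ((f : X → F) x))) ∧
      (∀ᵐ x ∂μ, ∀ i, ‖(ψ x : ℂ) • (v (σ i) : X → F) x‖ ≤ K) ∧
      (∀ (i : ℕ) (y : Lp F 2 μ), ((y : X → F) =ᵐ[μ] fun x => (ψ x : ℂ) • (v (σ i) : X → F) x) →
        ∀ᵐ x ∂μ, ‖(exp ((k (σ i) : ℂ) • W) y : X → F) x‖ ≤ K * Real.exp ((c + η) * k (σ i))) := by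
  set δ : ℝ := η / 2 with hδ
  have hδ0 : 0 < δ := by positivity
  set B : ℝ := 2 * (‖W‖ + 1) with hB
  have hB0 : 0 < B := by positivity
  have hC : 0 ≤ C := by
    have h1 := (norm_nonneg _).trans (hest 0)
    exact nonneg_of_mul_nonneg_left h1 (Real.exp_pos _)
  -- the subsequence
  obtain ⟨σ, hσ, hσv⟩ : ∃ σ : ℕ → ℕ, StrictMono σ ∧
      ∀ n : ℕ, ‖v (σ n) - f‖ < (1/2 : ℝ) ^ n / ((n : ℝ) + 1) := by
    refine extraction_forall_of_eventually
      (P := fun n i => ‖v i - f‖ < (1/2 : ℝ) ^ n / ((n : ℝ) + 1)) fun n => ?_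
    have h1 : Tendsto (fun i => ‖v i - f‖) atTop (𝓝 0) := by
      have := (hv.sub_const f).norm
      simpa using this
    exact h1.eventually_lt_const (by positivity)
  have hkσ : ∀ i : ℕ, (i : ℝ) ≤ (k (σ i) : ℝ) := fun i => by
    exact_mod_cast (hσ.id_le i).trans (hk.id_le (σ i))
  -- the majorants
  obtain ⟨G1, hG1m, hG10, hG1i, hG1⟩ := majorant (fun _ : Unit => f) (by
    exact (hasSum_fintype _).summable)
  obtain ⟨G2, hG2m, hG20, hG2i, hG2⟩ := majorant
    (fun n : ℕ => ((n : ℂ) + 1) • (v (σ n) - f)) (by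
      refine Summable.of_nonneg_of_le (fun _ => by positivity) (fun n => ?_)
        (summable_geometric_of_lt_one (r := (1/4 : ℝ)) (by norm_num) (by norm_num))
      have h1 : ‖((n : ℂ) + 1)‖ = (n : ℝ) + 1 := by
        rw [show ((n : ℂ) + 1) = ((n + 1 : ℕ) : ℂ) by push_cast; ring, Complex.norm_natCast]
        push_cast
        ring
      have h2 : ‖((n : ℂ) + 1) • (v (σ n) - f)‖ ≤ (1/2) ^ n := by
        rw [norm_smul, h1]
        calc ((n : ℝ) + 1) * ‖v (σ n) - f‖ ≤ ((n : ℝ) + 1) * ((1/2) ^ n / (n + 1)) := by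
              gcongr
              exact (hσv n).le
          _ = (1/2) ^ n := by field_simp
      calc ‖((n : ℂ) + 1) • (v (σ n) - f)‖ ^ 2 ≤ ((1/2) ^ n) ^ 2 := by gcongr
        _ = (1/4) ^ n := by rw [← pow_mul, mul_comm, pow_mul]; norm_num)
  obtain ⟨G3, hG3m, hG30, hG3i, hG3⟩ := majorant
    (fun p : ℕ × ℕ => (((B ^ p.2)⁻¹ * Real.exp (-((c + δ) * k (σ p.1))) : ℝ) : ℂ) •
      (W ^ p.2) (exp ((k (σ p.1) : ℂ) • W) (v (σ p.1)))) (by
    have h0 : Summable fun p : ℕ × ℕ => (Real.exp (-2 * δ)) ^ p.1 * (C ^ 2 * (1/4 : ℝ) ^ p.2) := by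
      refine Summable.mul_of_nonneg (f := fun i : ℕ => (Real.exp (-2 * δ)) ^ i)
        (g := fun m : ℕ => C ^ 2 * (1/4 : ℝ) ^ m) ?_ ?_ (fun i => ?_) (fun m => ?_)
      · refine summable_geometric_of_lt_one (Real.exp_pos _).le ?_
        rw [Real.exp_lt_one_iff]
        linarith
      · exact (summable_geometric_of_lt_one (by norm_num) (by norm_num)).mul_left _
      · show (0:ℝ) ≤ _
        positivity
      · show (0:ℝ) ≤ _
        positivity
    refine Summable.of_nonneg_of_le (fun _ => by positivity) (fun p => ?_) h0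
    obtain ⟨i, m⟩ := p
    simp only
    have h1 : ‖(((B ^ m)⁻¹ * Real.exp (-((c + δ) * k (σ i))) : ℝ) : ℂ) •
      (W ^ m) (exp ((k (σ i) : ℂ) • W) (v (σ i)))‖ ≤ C * ((1/2) ^ m * (Real.exp (-δ)) ^ i) := by
      rw [norm_smul, Complex.norm_real, Real.norm_eq_abs, abs_of_nonneg (by positivity)]
      have h2 : ‖(W ^ m) (exp ((k (σ i) : ℂ) • W) (v (σ i)))‖ ≤
          (B / 2) ^ m * (C * Real.exp (c * k (σ i))) := by
        refine ((W ^ m).le_opNorm _).trans (mul_le_mul ?_ (hest _) (norm_nonneg _) (by positivity))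
        rcases Nat.eq_zero_or_pos m with rfl | hm
        · rw [pow_zero, pow_zero]
          exact ContinuousLinearMap.norm_id_le
        · refine (norm_pow_le' W hm).trans ?_
          gcongr
          rw [hB]
          linarith
      calc _ ≤ (B ^ m)⁻¹ * Real.exp (-((c + δ) * k (σ i))) *
            ((B / 2) ^ m * (C * Real.exp (c * k (σ i)))) := by gcongr
        _ = C * ((1/2) ^ m * (Real.exp (-((c + δ) * k (σ i))) * Real.exp (c * k (σ i)))) := by
            rw [div_pow, one_div, inv_pow]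
            field_simp
        _ = C * ((1/2) ^ m * Real.exp (-δ * k (σ i))) := by
            rw [← Real.exp_add]
            congr 3
            ring
        _ ≤ C * ((1/2) ^ m * (Real.exp (-δ)) ^ i) := by
            rw [← Real.exp_nat_mul]
            have h5 : -δ * (k (σ i) : ℝ) ≤ (i : ℝ) * -δ := by
              have := hkσ i
              nlinarith
            exact mul_le_mul_of_nonneg_left (mul_le_mul_of_nonneg_left (Real.exp_le_exp.2 h5)
              (by positivity)) hC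
    calc _ ≤ (C * ((1/2) ^ m * (Real.exp (-δ)) ^ i)) ^ 2 := by gcongr
      _ = (Real.exp (-2 * δ)) ^ i * (C ^ 2 * (1/4 : ℝ) ^ m) := by
          have e1 : Real.exp (-2 * δ) = Real.exp (-δ) ^ 2 := by
            rw [← Real.exp_nat_mul]
            congr 1
            push_cast
            ring
          have e2 : (1/4 : ℝ) = (1/2) ^ 2 := by norm_num
          rw [e1, e2, ← pow_mul, ← pow_mul]
          ring)
  set G : X → ℝ := fun x => G1 x + G2 x + G3 x with hG
  have hGm : Measurable G := (hG1m.add hG2m).add hG3m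
  have hG0 : ∀ x, 0 ≤ G x := fun x => add_nonneg (add_nonneg (hG10 x) (hG20 x)) (hG30 x)
  have hGi : Integrable (fun x => G x ^ 2) μ :=
    integrable_sq_add (hG1m.add hG2m) hG3m (integrable_sq_add hG1m hG2m hG1i hG2i) hG3i
  -- the multiplier
  set m0 : ℝ := μ.real {x | (f : X → F) x ≠ 0} with hm0
  have hfm : MeasurableSet {x | (f : X → F) x ≠ 0} :=
    (Lp.stronglyMeasurable f).measurableSet_support
  have hm0p : 0 < m0 := by
    rw [hm0]
    refine ENNReal.toReal_pos ?_ (measure_ne_top _ _)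
    intro h0
    apply hf
    rw [Lp.eq_zero_iff_ae_eq_zero]
    exact h0
  obtain ⟨ψ, hψm, hψ01, hψi, K, hK, hslow⟩ := slow_exists S hS G hGm hG0 hGi (δ / B) (m0 / 2)
    (by positivity) (by positivity)
  refine ⟨σ, ψ, 2 * K, hσ, hψm, hψ01, by positivity, ?_, ?_, ?_, ?_⟩
  · intro hz
    have h1 : ∀ᵐ x ∂μ, ({x | (f : X → F) x ≠ 0} : Set X).indicator (fun _ => (1:ℝ)) x ≤ 1 - ψ x := by
      filter_upwards [hz] with x hx
      by_cases hfx : (f : X → F) x = 0
      · rw [Set.indicator_of_notMem (by simpa using hfx)]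
        linarith [(hψ01 x).2]
      · rw [Set.indicator_of_mem (by simpa using hfx)]
        have : ψ x = 0 := by
          rcases smul_eq_zero.1 hx with h | h
          · exact_mod_cast h
          · exact absurd h hfx
        rw [this, sub_zero]
    have h2 : Integrable (fun x => 1 - ψ x) μ := by
      refine (integrable_const (1:ℝ)).mono' (measurable_const.sub hψm).aestronglyMeasurable
        (Eventually.of_forall fun x => ?_)
      rw [Real.norm_eq_abs, abs_of_nonneg (by linarith [(hψ01 x).2])]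
      linarith [(hψ01 x).1]
    have h3 := integral_mono_ae ((integrable_const (1:ℝ)).indicator hfm) h2 h1
    rw [integral_indicator_const _ hfm, smul_eq_mul, mul_one] at h3
    linarith
  · filter_upwards [ae_all_iff.2 hG2, ae_all_iff.2 fun n : ℕ =>
      Lp.coeFn_smul ((n : ℂ) + 1) (v (σ n) - f), ae_all_iff.2 fun n : ℕ => Lp.coeFn_sub (v (σ n)) f]
      with x h1 h2 h3
    rw [tendsto_iff_norm_sub_tendsto_zero]
    refine squeeze_zero (fun _ => norm_nonneg _) (fun n => ?_)
      (tendsto_const_nhds.div_atTop (tendsto_natCast_atTop_atTop.atTop_add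
        (tendsto_const_nhds (x := (1:ℝ)))) : Tendsto (fun n : ℕ => G2 x / ((n : ℝ) + 1)) atTop (𝓝 0))
    have e1 := h1 n
    rw [h2 n, Pi.smul_apply, h3 n, Pi.sub_apply, norm_smul,
      show ((n : ℂ) + 1) = ((n + 1 : ℕ) : ℂ) by push_cast; ring, Complex.norm_natCast] at e1
    rw [le_div_iff₀ (by positivity)]
    push_cast at e1
    linarith
  · filter_upwards [ae_all_iff.2 hG2, ae_all_iff.2 fun n : ℕ =>
      Lp.coeFn_smul ((n : ℂ) + 1) (v (σ n) - f), ae_all_iff.2 fun n : ℕ => Lp.coeFn_sub (v (σ n)) f,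
      hG1 ()] with x h1 h2 h3 h4
    intro n
    have e1 := h1 n
    rw [h2 n, Pi.smul_apply, h3 n, Pi.sub_apply, norm_smul,
      show ((n : ℂ) + 1) = ((n + 1 : ℕ) : ℂ) by push_cast; ring, Complex.norm_natCast] at e1
    push_cast at e1
    have e2 : ‖(v (σ n) : X → F) x - (f : X → F) x‖ ≤ G2 x := by
      have : (0:ℝ) ≤ (n:ℝ) * ‖(v (σ n) : X → F) x - (f : X → F) x‖ := by positivity
      linarith
    have e3 : ‖(v (σ n) : X → F) x‖ ≤ G x := by
      calc ‖(v (σ n) : X → F) x‖ = ‖((v (σ n) : X → F) x - (f : X → F) x) + (f : X → F) x‖ := by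
            rw [sub_add_cancel]
        _ ≤ G2 x + G1 x := (norm_add_le _ _).trans (add_le_add e2 h4)
        _ ≤ G1 x + G2 x + G3 x := by linarith [hG30 x]
    have e4 := hslow 0 x
    simp only [Function.iterate_zero, id_eq, pow_zero, mul_one] at e4
    rw [norm_smul, Complex.norm_real, Real.norm_eq_abs]
    calc |ψ x| * ‖(v (σ n) : X → F) x‖ ≤ |ψ x| * G x :=
          mul_le_mul_of_nonneg_left e3 (abs_nonneg _)
      _ ≤ 2 * K := by linarith
  · intro i y hy
    set kk : ℝ := (k (σ i) : ℝ) with hkk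
    have hact : Act 2 (fun x => (k (σ i) : ℂ) • Φ x) S ((k (σ i) : ℂ) • W) := hW.smul _
    have h1 := exp_bound hS hact hψm hψ01 (G := G) (K := K) (ε := δ / B)
      (A := Real.exp ((c + δ) * kk)) (ρ := B * kk) hK (by positivity) (Real.exp_pos _).le
      (by positivity) hslow (v (σ i)) y hy (fun m => by
        have h2 := hG3 (i, m)
        filter_upwards [h2, Lp.coeFn_smul (((B ^ m)⁻¹ * Real.exp (-((c + δ) * k (σ i))) : ℝ) : ℂ)
          ((W ^ m) (exp ((k (σ i) : ℂ) • W) (v (σ i)))), Lp.coeFn_smul ((k (σ i) : ℂ) ^ m)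
          ((W ^ m) (exp ((k (σ i) : ℂ) • W) (v (σ i))))] with x e1 e2 e3
        rw [e2, Pi.smul_apply, norm_smul, Complex.norm_real, Real.norm_eq_abs,
          abs_of_nonneg (by positivity)] at e1
        have e4 : (((k (σ i) : ℂ) • W) ^ m) (exp ((k (σ i) : ℂ) • W) (v (σ i)))
            = ((k (σ i) : ℂ) ^ m) • ((W ^ m) (exp ((k (σ i) : ℂ) • W) (v (σ i)))) := by
          rw [smul_pow]
          rfl
        rw [e4, e3, Pi.smul_apply, norm_smul, norm_pow, Complex.norm_natCast]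
        have e5 : G3 x ≤ G x := by
          show G3 x ≤ G1 x + G2 x + G3 x
          linarith [hG10 x, hG20 x]
        have e6 : ‖((W ^ m) (exp ((k (σ i) : ℂ) • W) (v (σ i))) : X → F) x‖
            ≤ B ^ m * Real.exp ((c + δ) * kk) * G x := by
          have h7 : (B ^ m)⁻¹ * Real.exp (-((c + δ) * k (σ i))) *
              (B ^ m * Real.exp ((c + δ) * kk)) = 1 := by
            rw [Real.exp_neg, ← hkk]
            field_simp
          calc _ = (B ^ m * Real.exp ((c + δ) * kk)) * ((B ^ m)⁻¹ *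
                Real.exp (-((c + δ) * k (σ i))) *
                ‖((W ^ m) (exp ((k (σ i) : ℂ) • W) (v (σ i))) : X → F) x‖) := by
                linear_combination
                  (-‖((W ^ m) (exp ((k (σ i) : ℂ) • W) (v (σ i))) : X → F) x‖) * h7
            _ ≤ (B ^ m * Real.exp ((c + δ) * kk)) * G x :=
                mul_le_mul_of_nonneg_left (e1.trans e5) (by positivity)
        calc (k (σ i) : ℝ) ^ m * _ ≤ kk ^ m * (B ^ m * Real.exp ((c + δ) * kk) * G x) :=
              mul_le_mul_of_nonneg_left e6 (by positivity)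
          _ = Real.exp ((c + δ) * kk) * (B * kk) ^ m * G x := by
              rw [mul_pow B kk m]
              ring)
    filter_upwards [h1] with x hx
    refine hx.trans ?_
    have e1 : δ / B * (B * kk) = δ * kk := by field_simp
    rw [e1]
    calc Real.exp ((c + δ) * kk) * K * Real.exp (δ * kk)
        = K * Real.exp ((c + η) * kk) := by
          have : (c + η) * kk = (c + δ) * kk + δ * kk := by rw [hδ]; ring
          rw [this, Real.exp_add]
          ring
      _ ≤ 2 * K * Real.exp ((c + η) * kk) := by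
          have := Real.exp_pos ((c + η) * kk)
          nlinarith [mul_nonneg hK this.le]

end Pool.Agent.TH550.LV
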