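import Pool.Agent.TH550.LV.Fin
import Pool.Agent.TH550.LV.Bis

/-!
Function spaces given by representatives (helper550).
-/

set_option autoImplicit false
set_option linter.unusedSectionVars false
open scoped ComplexConjugate InnerProductSpace Topology ENNReal
open Filter MeasureTheory NormedSpace

namespace Pool.Agent.TH550.LV

variable {X : Type} [MeasurableSpace X] {μ : Measure X}
  {F : Type} [NormedAddCommGroup F] [InnerProductSpace ℂ F]
  {E : Type} [NormedAddCommGroup E] [NormedSpace ℂ E]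

/-- function spaces given by representatives -/
structure VSp (μ : Measure X) (val : E → X → F) : Prop where
  add : ∀ f g, val (f + g) =ᵐ[μ] fun x => val f x + val g x
  smul : ∀ (c : ℂ) f, val (c • f) =ᵐ[μ] fun x => c • val f x
  inj : ∀ f, (∀ᵐ x ∂μ, val f x = 0) → f = 0
  int : ∃ C : ℝ, ∀ f, Integrable (val f) μ ∧ ∫ x, ‖val f x‖ ∂μ ≤ C * ‖f‖
  bdd : ∀ u : X → F, StronglyMeasurable u → (∃ K : ℝ, ∀ x, ‖u x‖ ≤ K) → ∃ f, val f =ᵐ[μ] u
  dom : ∀ (f : ℕ → E) (g : E) (K : ℝ), (∀ n, ∀ᵐ x ∂μ, ‖val (f n) x‖ ≤ K) →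
    (∀ᵐ x ∂μ, Tendsto (fun n => val (f n) x) atTop (𝓝 (val g x))) → Tendsto f atTop (𝓝 g)

theorem VSp.ext {val : E → X → F} (h : VSp μ val) {f g : E} (hfg : val f =ᵐ[μ] val g) : f = g := by
  rw [← sub_eq_zero]
  apply h.inj
  have e : f - g = f + (-1 : ℂ) • g := by rw [neg_one_smul, sub_eq_add_neg]
  rw [e]
  filter_upwards [h.add f ((-1 : ℂ) • g), h.smul (-1) g, hfg] with x e1 e2 e3
  rw [e1, e2, e3, neg_one_smul, add_neg_cancel]

theorem VSp.exists_j {val : E → X → F} (h : VSp μ val) :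
    ∃ j : E →L[ℂ] Lp F 1 μ, ∀ f, (j f : X → F) =ᵐ[μ] val f := by
  obtain ⟨C, hC⟩ := h.int
  have hm : ∀ f, MemLp (val f) 1 μ := fun f => memLp_one_iff_integrable.2 (hC f).1
  let L : E →ₗ[ℂ] Lp F 1 μ :=
    { toFun := fun f => (hm f).toLp _
      map_add' := by
        intro f g
        apply Lp.ext
        filter_upwards [(hm (f + g)).coeFn_toLp, (hm f).coeFn_toLp, (hm g).coeFn_toLp, h.add f g,
          Lp.coeFn_add ((hm f).toLp _) ((hm g).toLp _)] with x e1 e2 e3 e4 e5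
        rw [e1, e4, e5, Pi.add_apply, e2, e3]
      map_smul' := by
        intro c f
        apply Lp.ext
        filter_upwards [(hm (c • f)).coeFn_toLp, (hm f).coeFn_toLp, h.smul c f,
          Lp.coeFn_smul c ((hm f).toLp _)] with x e1 e2 e3 e4
        simp only [RingHom.id_apply]
        rw [e1, e3, e4, Pi.smul_apply, e2] }
  refine ⟨L.mkContinuous C fun f => ?_, fun f => (hm f).coeFn_toLp⟩
  have h1 : ‖L f‖ = ∫ x, ‖val f x‖ ∂μ := by
    show ‖(hm f).toLp _‖ = _
    rw [Lp.norm_toLp, eLpNorm_one_eq_lintegral_enorm,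
      integral_norm_eq_lintegral_enorm (hC f).1.1]
  rw [h1]
  exact (hC f).2

theorem VSp.exists_i [IsProbabilityMeasure μ] {val : E → X → F} (h : VSp μ val) :
    ∃ i : Lp F ∞ μ →L[ℂ] E, ∀ u : Lp F ∞ μ, val (i u) =ᵐ[μ] (u : X → F) := by
  have hex : ∀ u : Lp F ∞ μ, ∃ f : E, val f =ᵐ[μ] (u : X → F) := by
    intro u
    classical
    have hm : MeasurableSet {x | ‖(u : X → F) x‖ ≤ ‖u‖} :=
      measurableSet_le (Lp.stronglyMeasurable u).norm.measurable measurable_const
    obtain ⟨f, hf⟩ := h.bdd (fun x => if x ∈ {x | ‖(u : X → F) x‖ ≤ ‖u‖} then (u : X → F) x else 0)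
      (StronglyMeasurable.ite hm (Lp.stronglyMeasurable u) stronglyMeasurable_const) ⟨‖u‖, fun x => by
        by_cases hx : x ∈ {x | ‖(u : X → F) x‖ ≤ ‖u‖}
        · simp only [hx, if_true]
          exact hx
        · simp only [hx, if_false, norm_zero]
          exact norm_nonneg _⟩
    refine ⟨f, hf.trans ?_⟩
    have h1 : ∀ᵐ x ∂μ, ‖(u : X → F) x‖ ≤ ‖u‖ := by
      have h1 := ae_le_eLpNormEssSup (f := (u : X → F)) (μ := μ)
      filter_upwards [h1] with x hx
      rw [Lp.norm_def, eLpNorm_exponent_top]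
      have h2 : eLpNormEssSup (u : X → F) μ ≠ ∞ := by
        have := (Lp.memLp u).2.ne
        rwa [eLpNorm_exponent_top] at this
      have h3 := ENNReal.toReal_mono h2 hx
      rwa [toReal_enorm] at h3
    filter_upwards [h1] with x hx
    exact if_pos hx
  choose i hi using hex
  have hadd : ∀ u v, i (u + v) = i u + i v := by
    intro u v
    apply h.ext
    filter_upwards [hi (u + v), hi u, hi v, h.add (i u) (i v), Lp.coeFn_add u v] with x e1 e2 e3 e4 e5
    rw [e1, e4, e2, e3, e5, Pi.add_apply]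
  have hsmul : ∀ (c : ℂ) u, i (c • u) = c • i u := by
    intro c u
    apply h.ext
    filter_upwards [hi (c • u), hi u, h.smul c (i u), Lp.coeFn_smul c u] with x e1 e2 e3 e4
    rw [e1, e3, e2, e4, Pi.smul_apply]
  let L : Lp F ∞ μ →ₗ[ℂ] E := { toFun := i, map_add' := hadd, map_smul' := hsmul }
  have hcont : Continuous L := by
    refine continuous_of_continuousAt_zero L ?_
    refine tendsto_of_seq_tendsto fun w hw => ?_
    have h0 : L 0 = 0 := map_zero L
    rw [h0]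
    obtain ⟨K, hK⟩ := (Metric.isBounded_range_of_tendsto w hw).exists_norm_le
    have hb : ∀ u : Lp F ∞ μ, ∀ᵐ x ∂μ, ‖(u : X → F) x‖ ≤ ‖u‖ := by
      intro u
      have h1 := ae_le_eLpNormEssSup (f := (u : X → F)) (μ := μ)
      filter_upwards [h1] with x hx
      rw [Lp.norm_def, eLpNorm_exponent_top]
      have h2 : eLpNormEssSup (u : X → F) μ ≠ ∞ := by
        have := (Lp.memLp u).2.ne
        rwa [eLpNorm_exponent_top] at this
      have h3 := ENNReal.toReal_mono h2 hx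
      rwa [toReal_enorm] at h3
    refine h.dom (fun n => i (w n)) 0 K (fun n => ?_) ?_
    · filter_upwards [hi (w n), hb (w n)] with x e1 e2
      rw [e1]
      exact e2.trans (hK _ ⟨n, rfl⟩)
    · have hz : ∀ᵐ x ∂μ, val (0 : E) x = 0 := by
        have h1 := h.smul 0 (0 : E)
        rw [zero_smul] at h1
        filter_upwards [h1] with x e1
        rw [e1, zero_smul]
      filter_upwards [ae_all_iff.2 fun n => hi (w n), ae_all_iff.2 fun n => hb (w n), hz]
        with x e1 e2 e3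
      rw [e3]
      refine squeeze_zero_norm (fun n => ?_) (tendsto_norm_zero.comp hw)
      rw [e1 n]
      exact e2 n
  exact ⟨⟨L, hcont⟩, hi⟩

theorem VSp.fsp [IsProbabilityMeasure μ] {val : E → X → F} (h : VSp μ val)
    {j : E →L[ℂ] Lp F 1 μ} (hj : ∀ f, (j f : X → F) =ᵐ[μ] val f)
    {i : Lp F ∞ μ →L[ℂ] E} (hi : ∀ u : Lp F ∞ μ, val (i u) =ᵐ[μ] (u : X → F)) : FSp j i := by
  refine ⟨fun f hf => ?_, fun f => (hj (i f)).trans (hi f), fun f g K hK hl => ?_⟩
  · apply h.inj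
    rw [Lp.eq_zero_iff_ae_eq_zero] at hf
    filter_upwards [hj f, hf] with x e1 e2
    rw [← e1, e2]
    rfl
  · refine h.dom _ _ K (fun n => ?_) ?_
    · have h1 := ae_le_eLpNormEssSup (f := (f n : X → F)) (μ := μ)
      filter_upwards [h1, hi (f n)] with x hx e1
      rw [e1]
      refine le_trans ?_ (hK n)
      rw [Lp.norm_def, eLpNorm_exponent_top]
      have h2 : eLpNormEssSup (f n : X → F) μ ≠ ∞ := by
        have := (Lp.memLp (f n)).2.ne
        rwa [eLpNorm_exponent_top] at this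
      have h3 := ENNReal.toReal_mono h2 hx
      rwa [toReal_enorm] at h3
    · filter_upwards [hl, ae_all_iff.2 fun n => hi (f n), hi g] with x e1 e2 e3
      simp_rw [e2]
      rw [e3]
      exact e1

/-- the general theorem for function spaces given by representatives -/
theorem val_hyp (X : Type) [MeasurableSpace X] [MeasurableSpace.CountablyGenerated X]
    (μ : Measure X) [IsProbabilityMeasure μ]
    (F : Type) [NormedAddCommGroup F] [InnerProductSpace ℂ F] [FiniteDimensional ℂ F]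
    (S : X ≃ᵐ X) (hS : MeasurePreserving S μ μ)
    (hap : ∀ n : ℕ, 1 ≤ n → ∃ B : Set X, MeasurableSet B ∧ ¬ ((S^[n]) ⁻¹' B =ᵐ[μ] B))
    (Φ : X → (F →L[ℂ] F)) (R : ℝ) (hΦm : StronglyMeasurable Φ) (hΦR : ∀ x, ‖Φ x‖ ≤ R)
    (hlog : (∀ᵐ x ∂μ, IsUnit (Φ x)) →
      Integrable (fun x => Real.log ‖Ring.inverse (Φ x)‖) μ)
    (E : Type) [NormedAddCommGroup E] [NormedSpace ℂ E] [CompleteSpace E]
    (val : E → X → F) (hE : VSp μ val) (T : E →L[ℂ] E)
    (hT : ∀ f : E, val (T f) =ᵐ[μ] fun x => Φ x (val f (S x)))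
    (hT0 : T ≠ 0) : HH T := by
  obtain ⟨j, hj⟩ := hE.exists_j
  obtain ⟨i, hi⟩ := hE.exists_i
  refine fin_hyp X μ F S hS hap Φ R hΦm hΦR hlog E j i (hE.fsp hj hi) T (fun f => ?_) hT0
  have h1 := hS.quasiMeasurePreserving.ae_eq_comp (hj f)
  filter_upwards [hj (T f), hT f, h1] with x e1 e2 e3
  simp only [Function.comp_apply] at e3
  rw [e1, e2, e3]

/-- `L^p` is such a space -/
theorem vsp_Lp [CompleteSpace F] [IsProbabilityMeasure μ] (p : ℝ≥0∞) [hp : Fact (1 ≤ p)]
    (hp' : p ≠ ∞) : VSp μ (fun (f : Lp F p μ) (x : X) => (f : X → F) x) := by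
  refine ⟨fun f g => ?_, fun c f => ?_, fun f hf => ?_, ⟨1, fun f => ⟨?_, ?_⟩⟩, fun u hu hb => ?_,
    fun f g K hK hl => ?_⟩
  · exact Lp.coeFn_add f g
  · exact Lp.coeFn_smul c f
  · rw [Lp.eq_zero_iff_ae_eq_zero]
    exact hf
  · exact (Lp.memLp f).integrable hp.1
  · rw [one_mul]
    have h1 : ∫ x, ‖(f : X → F) x‖ ∂μ = (eLpNorm (f : X → F) 1 μ).toReal := by
      rw [eLpNorm_one_eq_lintegral_enorm, integral_norm_eq_lintegral_enorm (Lp.memLp f).1]
    rw [h1, Lp.norm_def]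
    exact ENNReal.toReal_mono (Lp.memLp f).2.ne
      (eLpNorm_le_eLpNorm_of_exponent_le hp.1 (Lp.memLp f).1)
  · obtain ⟨K, hK⟩ := hb
    have hm : MemLp u p μ := MemLp.of_bound hu.aestronglyMeasurable K (Eventually.of_forall hK)
    exact ⟨hm.toLp _, hm.coeFn_toLp⟩
  · exact tendsto_bdd hp' f g K (ae_all_iff.2 hK) hl

end Pool.Agent.TH550.LV
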