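import Pool.Agent.TH550.LP.Exp
import Pool.Agent.TH550.LP.Slow

/-!
Operator-weighted translations on the spaces `L^q(μ; F)` (helper550).
-/

set_option autoImplicit false
open scoped ComplexConjugate Topology ENNReal
open Filter MeasureTheory NormedSpace

namespace Pool.Agent.TH550.LV
open Pool.Agent.TH550.LP

variable {X : Type} [MeasurableSpace X] {μ : Measure X}
  {F : Type} [NormedAddCommGroup F] [InnerProductSpace ℂ F] [CompleteSpace F]

/-- `T` acts as `f ↦ Φ (f ∘ S)` -/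
def Act (q : ℝ≥0∞) [Fact (1 ≤ q)] (Φ : X → F →L[ℂ] F) (S : X → X) (T : Lp F q μ →L[ℂ] Lp F q μ) :
    Prop :=
  ∀ f : Lp F q μ, (T f : X → F) =ᵐ[μ] fun x => Φ x ((f : X → F) (S x))

omit [CompleteSpace F] in
theorem wmem (q : ℝ≥0∞) {Φ : X → F →L[ℂ] F} (hΦ : StronglyMeasurable Φ) {R : ℝ} (hR : ∀ x, ‖Φ x‖ ≤ R)
    {S : X → X} (hS : MeasurePreserving S μ μ) (f : Lp F q μ) :
    MemLp (fun x => Φ x ((f : X → F) (S x))) q μ := by
  have h1 : MemLp ((f : X → F) ∘ S) q μ := (Lp.memLp f).comp_measurePreserving hS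
  refine MemLp.of_le_mul (c := R) h1
    ((ContinuousLinearMap.id ℂ (F →L[ℂ] F)).aestronglyMeasurable_comp₂
      hΦ.aestronglyMeasurable h1.1) ?_
  refine Eventually.of_forall fun x => ?_
  simp only [Function.comp_apply]
  exact ((Φ x).le_opNorm _).trans (mul_le_mul_of_nonneg_right (hR x) (norm_nonneg _))

omit [CompleteSpace F] in
theorem exists_act (q : ℝ≥0∞) [Fact (1 ≤ q)] {Φ : X → F →L[ℂ] F} (hΦ : StronglyMeasurable Φ)
    {R : ℝ} (hR0 : 0 ≤ R) (hR : ∀ x, ‖Φ x‖ ≤ R) {S : X → X} (hS : MeasurePreserving S μ μ) :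
    ∃ T : Lp F q μ →L[ℂ] Lp F q μ, Act q Φ S T ∧ ‖T‖ ≤ R := by
  let L : Lp F q μ →ₗ[ℂ] Lp F q μ :=
    { toFun := fun f => (wmem q hΦ hR hS f).toLp _
      map_add' := by
        intro f g
        apply Lp.ext
        have h1 := MemLp.coeFn_toLp (wmem q hΦ hR hS (f + g))
        have h2 := MemLp.coeFn_toLp (wmem q hΦ hR hS f)
        have h3 := MemLp.coeFn_toLp (wmem q hΦ hR hS g)
        have h4 := hS.quasiMeasurePreserving.ae_eq_comp (Lp.coeFn_add f g)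
        filter_upwards [h1, h2, h3, h4, Lp.coeFn_add ((wmem q hΦ hR hS f).toLp _)
          ((wmem q hΦ hR hS g).toLp _)] with x e1 e2 e3 e4 e5
        rw [e1, e5, Pi.add_apply, e2, e3]
        simp only [Function.comp_apply, Pi.add_apply] at e4
        rw [e4, map_add]
      map_smul' := by
        intro c f
        apply Lp.ext
        have h1 := MemLp.coeFn_toLp (wmem q hΦ hR hS (c • f))
        have h2 := MemLp.coeFn_toLp (wmem q hΦ hR hS f)
        have h4 := hS.quasiMeasurePreserving.ae_eq_comp (Lp.coeFn_smul c f)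
        filter_upwards [h1, h2, h4, Lp.coeFn_smul c ((wmem q hΦ hR hS f).toLp _)]
          with x e1 e2 e4 e5
        simp only [Function.comp_apply, Pi.smul_apply] at e4 e5
        simp only [RingHom.id_apply]
        rw [e1, e5, e2, e4, map_smul] }
  have hL : ∀ f, ‖L f‖ ≤ R * ‖f‖ := by
    intro f
    have hc := Lp.norm_compMeasurePreserving (p := q) f hS
    rw [← hc]
    refine Lp.norm_le_mul_norm_of_ae_le_mul ?_
    filter_upwards [MemLp.coeFn_toLp (wmem q hΦ hR hS f), Lp.coeFn_compMeasurePreserving f hS]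
      with x e1 e2
    show ‖((wmem q hΦ hR hS f).toLp _ : X → F) x‖ ≤ _
    rw [e1, e2, Function.comp_apply]
    exact ((Φ x).le_opNorm _).trans (mul_le_mul_of_nonneg_right (hR x) (norm_nonneg _))
  refine ⟨L.mkContinuous R hL, fun f => ?_, L.mkContinuous_norm_le hR0 hL⟩
  exact MemLp.coeFn_toLp (wmem q hΦ hR hS f)

omit [CompleteSpace F] in
theorem Act.unique {q : ℝ≥0∞} [Fact (1 ≤ q)] {Φ : X → F →L[ℂ] F} {S : X → X}
    {T1 T2 : Lp F q μ →L[ℂ] Lp F q μ} (h1 : Act q Φ S T1) (h2 : Act q Φ S T2) : T1 = T2 := by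
  refine ContinuousLinearMap.ext fun f => Lp.ext ?_
  filter_upwards [h1 f, h2 f] with x e1 e2
  rw [e1, e2]

omit [CompleteSpace F] in
theorem Act.smul {q : ℝ≥0∞} [Fact (1 ≤ q)] {Φ : X → F →L[ℂ] F} {S : X → X}
    {T : Lp F q μ →L[ℂ] Lp F q μ} (h : Act q Φ S T) (c : ℂ) : Act q (fun x => c • Φ x) S (c • T) := by
  intro f
  have h1 : (c • T) f = c • T f := rfl
  rw [h1]
  filter_upwards [h f, Lp.coeFn_smul c (T f)] with x e1 e2
  rw [e2, Pi.smul_apply, e1]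
  rfl

omit [CompleteSpace F] in
theorem Act.comp {q : ℝ≥0∞} [Fact (1 ≤ q)] {Φ1 Φ2 : X → F →L[ℂ] F} {S1 S2 : X → X}
    {T1 T2 : Lp F q μ →L[ℂ] Lp F q μ} (h1 : Act q Φ1 S1 T1) (h2 : Act q Φ2 S2 T2)
    (hS1 : MeasurePreserving S1 μ μ) : Act q (fun x => Φ1 x * Φ2 (S1 x)) (S2 ∘ S1) (T1 * T2) := by
  intro f
  have e : (T1 * T2) f = T1 (T2 f) := rfl
  rw [e]
  have h3 := hS1.quasiMeasurePreserving.ae_eq_comp (h2 f)
  filter_upwards [h1 (T2 f), h3] with x e1 e2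
  simp only [Function.comp_apply] at e2 ⊢
  rw [e1, e2]
  rfl

omit [CompleteSpace F] in
theorem Act.add {q : ℝ≥0∞} [Fact (1 ≤ q)] {Φ1 Φ2 : X → F →L[ℂ] F} {S : X → X}
    {T1 T2 : Lp F q μ →L[ℂ] Lp F q μ} (h1 : Act q Φ1 S T1) (h2 : Act q Φ2 S T2) :
    Act q (fun x => Φ1 x + Φ2 x) S (T1 + T2) := by
  intro f
  have e : (T1 + T2) f = T1 f + T2 f := rfl
  rw [e]
  filter_upwards [h1 f, h2 f, Lp.coeFn_add (T1 f) (T2 f)] with x e1 e2 e3
  rw [e3, Pi.add_apply, e1, e2]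
  rfl

omit [CompleteSpace F] in
theorem Act.congr {q : ℝ≥0∞} [Fact (1 ≤ q)] {Φ1 Φ2 : X → F →L[ℂ] F} {S : X → X}
    {T : Lp F q μ →L[ℂ] Lp F q μ} (h : Act q Φ1 S T) (h2 : Φ1 =ᵐ[μ] Φ2) : Act q Φ2 S T := by
  intro f
  filter_upwards [h f, h2] with x e1 e2
  rw [e1, e2]

omit [InnerProductSpace ℂ F] [CompleteSpace F] in
/-- pointwise bounds pass to limits in `L²` -/
theorem lim_bound {s : ℕ → Lp F 2 μ} {y : Lp F 2 μ} (h : Tendsto s atTop (𝓝 y)) {c : ℝ}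
    (hs : ∀ n, ∀ᵐ x ∂μ, ‖(s n : X → F) x‖ ≤ c) : ∀ᵐ x ∂μ, ‖(y : X → F) x‖ ≤ c := by
  obtain ⟨ns, -, hns⟩ := (tendstoInMeasure_of_tendsto_Lp h).exists_seq_tendsto_ae
  filter_upwards [hns, ae_all_iff.2 hs] with x h1 h2
  exact le_of_tendsto h1.norm (Eventually.of_forall fun i => h2 (ns i))

omit [InnerProductSpace ℂ F] [CompleteSpace F] in
theorem sum_bound {t : ℕ → Lp F 2 μ} {c : ℕ → ℝ} (ht : ∀ n, ∀ᵐ x ∂μ, ‖(t n : X → F) x‖ ≤ c n)
    (n : ℕ) : ∀ᵐ x ∂μ, ‖((∑ i ∈ Finset.range n, t i : Lp F 2 μ) : X → F) x‖ ≤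
      ∑ i ∈ Finset.range n, c i := by
  induction n with
  | zero =>
    filter_upwards [Lp.coeFn_zero F 2 μ] with x e1
    rw [Finset.sum_range_zero, Finset.sum_range_zero, e1, Pi.zero_apply, norm_zero]
  | succ n ih =>
    rw [Finset.sum_range_succ]
    filter_upwards [ih, ht n, Lp.coeFn_add (∑ i ∈ Finset.range n, t i) (t n)] with x e1 e2 e3
    rw [e3, Pi.add_apply, Finset.sum_range_succ]
    exact (norm_add_le _ _).trans (add_le_add e1 e2)

/-- the exponential of a weighted translation on a slowly truncated vector -/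
theorem exp_bound {S : X ≃ᵐ X} (hS : MeasurePreserving S μ μ) {Φ : X → F →L[ℂ] F}
    {W : Lp F 2 μ →L[ℂ] Lp F 2 μ} (hW : Act 2 Φ S W) {ψ : X → ℝ} (hψ : Measurable ψ)
    (hψ01 : ∀ x, 0 ≤ ψ x ∧ ψ x ≤ 1) {G : X → ℝ} {K ε A ρ : ℝ} (hK : 0 ≤ K)
    (hε : 0 ≤ ε) (hA : 0 ≤ A) (hρ : 0 ≤ ρ)
    (hslow : ∀ (m : ℕ) (x : X), |(dl S)^[m] ψ x| * G x ≤ K * ε ^ m)
    (v y : Lp F 2 μ) (hy : (y : X → F) =ᵐ[μ] fun x => (ψ x : ℂ) • (v : X → F) x)
    (hu : ∀ m : ℕ, ∀ᵐ x ∂μ, ‖((W ^ m) (exp W v) : X → F) x‖ ≤ A * ρ ^ m * G x) :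
    ∀ᵐ x ∂μ, ‖(exp W y : X → F) x‖ ≤ A * K * Real.exp (ε * ρ) := by
  have hdm : ∀ m : ℕ, Measurable ((dl S)^[m] ψ) := by
    intro m
    induction m with
    | zero => exact hψ
    | succ m ih =>
      rw [Function.iterate_succ_apply']
      exact (ih.comp S.measurable).sub ih
  have hdb : ∀ (m : ℕ) (x : X), |(dl S)^[m] ψ x| ≤ 1 * 2 ^ m := by
    intro m
    induction m with
    | zero =>
      intro x
      simp only [Function.iterate_zero, id_eq, pow_zero, mul_one]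
      rw [abs_of_nonneg (hψ01 x).1]
      exact (hψ01 x).2
    | succ m ih =>
      intro x
      rw [Function.iterate_succ_apply']
      calc |(dl S)^[m] ψ (S x) - (dl S)^[m] ψ x| ≤ |(dl S)^[m] ψ (S x)| + |(dl S)^[m] ψ x| :=
            abs_sub _ _
        _ ≤ 1 * 2 ^ m + 1 * 2 ^ m := add_le_add (ih _) (ih _)
        _ = 1 * 2 ^ (m + 1) := by ring
  have hex : ∀ m : ℕ, ∃ N : Lp F 2 μ →L[ℂ] Lp F 2 μ,
      Act 2 (fun x => (((dl S)^[m] ψ x : ℝ) : ℂ) • (1 : F →L[ℂ] F)) (id : X → X) N ∧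
        ‖N‖ ≤ 1 * 2 ^ m := by
    intro m
    refine exists_act 2 ((Complex.measurable_ofReal.comp (hdm m)).stronglyMeasurable.smul_const _)
      (by positivity) (fun x => ?_) (MeasurePreserving.id μ)
    show ‖(((dl S)^[m] ψ x : ℝ) : ℂ) • (1 : F →L[ℂ] F)‖ ≤ _
    rw [norm_smul, Complex.norm_real, Real.norm_eq_abs]
    calc _ ≤ |(dl S)^[m] ψ x| * 1 :=
          mul_le_mul_of_nonneg_left ContinuousLinearMap.norm_id_le (abs_nonneg _)
      _ ≤ 1 * 2 ^ m := by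
          rw [mul_one]
          exact hdb m x
  choose N hN hNn using hex
  have hcomm : ∀ m, W * N m = (N m + N (m + 1)) * W := by
    intro m
    have h1 := hW.comp (hN m) hS
    have h2 := ((hN m).add (hN (m + 1))).comp hW (MeasurePreserving.id μ)
    refine Act.unique h1 (h2.congr (Eventually.of_forall fun x => ?_))
    simp only [id_eq]
    rw [Function.iterate_succ_apply', ← add_smul, smul_mul_assoc, one_mul, mul_smul_comm, mul_one]
    congr 1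
    show (((dl S)^[m] ψ x : ℝ) + (((dl S)^[m] ψ (S x) - (dl S)^[m] ψ x : ℝ) : ℂ)) = _
    push_cast
    ring
  have h1 := exp_shift W N hcomm 1 2 hNn
  have h2 := (h1.mapL (ContinuousLinearMap.apply ℂ (Lp F 2 μ) v))
  have h3 : HasSum (fun m : ℕ => ((m.factorial : ℂ)⁻¹) • (N m ((W ^ m) (exp W v)))) (exp W y) := by
    have h4 : N 0 v = y := by
      apply Lp.ext
      filter_upwards [hN 0 v, hy] with x e1 e2
      rw [e1, e2]
      rfl
    rw [← h4]
    exact h2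
  have h5 := h3.tendsto_sum_nat
  refine lim_bound h5 fun n => ?_
  have h6 : ∀ m : ℕ, ∀ᵐ x ∂μ, ‖((((m.factorial : ℂ)⁻¹) • (N m ((W ^ m) (exp W v))) : Lp F 2 μ)
      : X → F) x‖ ≤ A * K * ((ε * ρ) ^ m / m.factorial) := by
    intro m
    filter_upwards [Lp.coeFn_smul ((m.factorial : ℂ)⁻¹) (N m ((W ^ m) (exp W v))),
      hN m ((W ^ m) (exp W v)), hu m] with x e1 e2 e3
    have e0 : ((((dl S)^[m] ψ x : ℝ) : ℂ) • (1 : F →L[ℂ] F)) (((W ^ m) (exp W v) : X → F) (id x))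
      = (((dl S)^[m] ψ x : ℝ) : ℂ) • ((W ^ m) (exp W v) : X → F) x := rfl
    rw [e1, Pi.smul_apply, e2, e0, norm_smul, norm_inv, Complex.norm_natCast, norm_smul,
      Complex.norm_real, Real.norm_eq_abs]
    have e4 : |(dl S)^[m] ψ x| * ‖((W ^ m) (exp W v) : X → F) x‖ ≤ A * ρ ^ m * (K * ε ^ m) := by
      calc _ ≤ |(dl S)^[m] ψ x| * (A * ρ ^ m * G x) :=
            mul_le_mul_of_nonneg_left e3 (abs_nonneg _)
        _ = A * ρ ^ m * (|(dl S)^[m] ψ x| * G x) := by ring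
        _ ≤ A * ρ ^ m * (K * ε ^ m) := mul_le_mul_of_nonneg_left (hslow m x) (by positivity)
    calc _ ≤ ((m.factorial : ℝ))⁻¹ * (A * ρ ^ m * (K * ε ^ m)) :=
          mul_le_mul_of_nonneg_left e4 (by positivity)
      _ = _ := by
          rw [mul_pow]
          ring
  filter_upwards [sum_bound h6 n] with x e1
  refine e1.trans ?_
  rw [← Finset.mul_sum]
  exact mul_le_mul_of_nonneg_left (Real.sum_le_exp_of_nonneg (by positivity) n) (by positivity)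

end Pool.Agent.TH550.LV
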